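import Mathlib

/-!
Second moment of the number of integers coprime to a primorial in short intervals
(project RC6; written by helper510 for helper831).
-/

set_option autoImplicit false

namespace Pool.Agent.Y831.RC

open Finset

theorem rn_two (q M : ℕ) (hq : 0 < q) (hM : 0 < M) (hco : q.Coprime M) (F G : ℕ → ℝ)
    (hF : ∀ b, F (b % q) = F b) (hG : ∀ b, G (b % M) = G b) :
    ∑ b ∈ range (q * M), F b * G b = (∑ r ∈ range q, F r) * ∑ s ∈ range M, G s := by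
  rw [Finset.sum_mul_sum, ← Finset.sum_product']
  refine Finset.sum_bij (fun b _ => (b % q, b % M)) ?_ ?_ ?_ ?_
  · intro b _
    simp only [mem_product, mem_range]
    exact ⟨Nat.mod_lt _ hq, Nat.mod_lt _ hM⟩
  · intro a ha b hb hab
    simp only [Prod.mk.injEq] at hab
    rw [mem_range] at ha hb
    have h := (Nat.modEq_and_modEq_iff_modEq_mul hco).1 ⟨hab.1, hab.2⟩
    exact Nat.ModEq.eq_of_lt_of_lt h ha hb
  · rintro ⟨r, s⟩ hrs
    simp only [mem_product, mem_range] at hrs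
    refine ⟨Nat.chineseRemainder hco r s, ?_, ?_⟩
    · rw [mem_range]; exact Nat.chineseRemainder_lt_mul hco r s hq.ne' hM.ne'
    · have h := (Nat.chineseRemainder hco r s).2
      have h1 : ((Nat.chineseRemainder hco r s : ℕ)) % q = r % q := h.1
      have h2 : ((Nat.chineseRemainder hco r s : ℕ)) % M = s % M := h.2
      simp only [Prod.mk.injEq]
      rw [h1, h2, Nat.mod_eq_of_lt hrs.1, Nat.mod_eq_of_lt hrs.2]
      exact ⟨rfl, rfl⟩
  · intro b _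
    simp only
    rw [hF, hG]

theorem rn_crt (S : Finset ℕ) (f : ℕ → ℕ → ℝ) (hS : ∀ p ∈ S, p.Prime)
    (hf : ∀ p ∈ S, ∀ b, f p (b % p) = f p b) :
    ∑ b ∈ range (∏ p ∈ S, p), ∏ p ∈ S, f p b = ∏ p ∈ S, ∑ r ∈ range p, f p r := by
  induction S using Finset.induction_on with
  | empty => simp
  | insert q S hqS ih =>
    have hSS : ∀ p ∈ S, p.Prime := fun p hp => hS p (mem_insert_of_mem hp)
    have hq : q.Prime := hS q (mem_insert_self q S)
    have ih' := ih hSS (fun p hp => hf p (mem_insert_of_mem hp))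
    rw [prod_insert hqS, prod_insert hqS, ← ih']
    have e1 : ∀ b, ∏ p ∈ insert q S, f p b = f q b * ∏ p ∈ S, f p b :=
      fun b => prod_insert hqS
    simp only [e1]
    refine rn_two q (∏ p ∈ S, p) hq.pos (prod_pos fun p hp => (hSS p hp).pos) ?_ (f q)
      (fun b => ∏ p ∈ S, f p b) (hf q (mem_insert_self q S)) ?_
    · refine Nat.Coprime.prod_right fun p hp => ?_
      refine (Nat.coprime_primes hq (hSS p hp)).2 ?_
      rintro rfl
      exact hqS hp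
    · intro b
      refine prod_congr rfl fun p hp => ?_
      rw [← hf p (mem_insert_of_mem hp) (b % _), Nat.mod_mod_of_dvd _ (dvd_prod_of_mem _ hp),
        hf p (mem_insert_of_mem hp)]

theorem rn_root (p k : ℕ) (hp : 0 < p) : ∃ r0, r0 < p ∧ ∀ r, r < p → (p ∣ r + k ↔ r = r0) := by
  refine ⟨(p - k % p) % p, Nat.mod_lt _ hp, fun r hr => ?_⟩
  have hk : k % p < p := Nat.mod_lt _ hp
  have h1 : (p ∣ r + k) ↔ p ∣ r + k % p := by
    rw [Nat.dvd_iff_mod_eq_zero, Nat.dvd_iff_mod_eq_zero, Nat.add_mod_mod]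
  rw [h1]
  rcases Nat.eq_zero_or_pos (k % p) with h0 | h0
  · rw [h0, Nat.add_zero, Nat.sub_zero, Nat.mod_self]
    constructor
    · intro h; exact Nat.eq_zero_of_dvd_of_lt h hr
    · rintro rfl; exact dvd_zero p
  · rw [Nat.mod_eq_of_lt (by omega : p - k % p < p)]
    constructor
    · rintro ⟨c, hc⟩
      have hc1 : c = 1 := by
        have a1 : 0 < c := by
          rcases Nat.eq_zero_or_pos c with h | h
          · rw [h] at hc; omega
          · exact h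
        have a2 : c < 2 := by
          by_contra h
          have h3 : p * 2 ≤ p * c := Nat.mul_le_mul_left p (by omega)
          omega
        omega
      rw [hc1] at hc
      omega
    · intro h
      exact ⟨1, by omega⟩

theorem rn_pair (p k k' : ℕ) (hp : 0 < p) :
    ∑ r ∈ range p, (if p ∣ r + k then (0 : ℝ) else 1) * (if p ∣ r + k' then (0 : ℝ) else 1) =
      ((p : ℝ) - 2) + (if k ≡ k' [MOD p] then (1 : ℝ) else 0) := by
  obtain ⟨r0, h0, hr0⟩ := rn_root p k hp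
  obtain ⟨r1, h1, hr1⟩ := rn_root p k' hp
  have hiff : (k ≡ k' [MOD p]) ↔ r0 = r1 := by
    constructor
    · intro h
      refine (hr1 r0 h0).1 ?_
      have h2 : p ∣ r0 + k := (hr0 r0 h0).2 rfl
      exact ((Nat.ModEq.add_left r0 h).dvd_iff (dvd_refl p)).1 h2
    · intro h
      have h2 : p ∣ r0 + k := (hr0 r0 h0).2 rfl
      have h3 : p ∣ r0 + k' := (hr1 r0 h0).2 h
      have h4 : r0 + k ≡ r0 + k' [MOD p] :=
        ((Nat.modEq_zero_iff_dvd).2 h2).trans ((Nat.modEq_zero_iff_dvd).2 h3).symm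
      exact Nat.ModEq.add_left_cancel' r0 h4
  have e : ∀ r ∈ range p,
      (if p ∣ r + k then (0 : ℝ) else 1) * (if p ∣ r + k' then (0 : ℝ) else 1) =
      1 - (if r = r0 then (1 : ℝ) else 0) - (if r = r1 then (1 : ℝ) else 0)
        + (if r = r0 then (if r0 = r1 then (1 : ℝ) else 0) else 0) := by
    intro r hr
    rw [mem_range] at hr
    simp only [hr0 r hr, hr1 r hr]
    by_cases a : r = r0
    · subst a
      by_cases b : r = r1
      · simp [b]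
      · simp [b]
    · by_cases b : r = r1
      · simp only [if_neg a, if_pos b]
        norm_num
      · simp only [if_neg a, if_neg b]
        norm_num
  rw [sum_congr rfl e, sum_add_distrib, sum_sub_distrib, sum_sub_distrib]
  rw [Finset.sum_ite_eq', Finset.sum_ite_eq', Finset.sum_ite_eq',
    if_pos (mem_range.2 h0), if_pos (mem_range.2 h1), if_pos (mem_range.2 h0)]
  simp only [hiff, sum_const, card_range, nsmul_eq_mul, mul_one]
  ring

theorem rn_count (m N k : ℕ) (hm : 0 < m) (hk : k ∈ Icc 1 N) :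
    ∑ k' ∈ (Icc 1 N).erase k, (if k ≡ k' [MOD m] then (1 : ℝ) else 0) ≤ (N : ℝ) * (1 / (m : ℝ)) := by
  have h1 : ∑ k' ∈ (Icc 1 N).erase k, (if k ≡ k' [MOD m] then (1 : ℝ) else 0) + 1
      = ((((Ioc 0 N).filter (fun x => x ≡ k [MOD m])).card : ℕ) : ℝ) := by
    have h2 : (((Ioc 0 N).filter (fun x => x ≡ k [MOD m])).card : ℝ)
        = ∑ k' ∈ Icc 1 N, (if k ≡ k' [MOD m] then (1 : ℝ) else 0) := by
      rw [Finset.sum_boole]
      congr 2
      ext x
      simp only [mem_filter, mem_Ioc, mem_Icc]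
      constructor
      · rintro ⟨a, b⟩; exact ⟨⟨by omega, by omega⟩, b.symm⟩
      · rintro ⟨a, b⟩; exact ⟨⟨by omega, by omega⟩, b.symm⟩
    rw [h2, ← Finset.sum_erase_add _ _ hk, if_pos (Nat.ModEq.refl k)]
  have h3 := Nat.Ioc_filter_modEq_card 0 N hm k
  have hmq : (0 : ℚ) < (m : ℚ) := by exact_mod_cast hm
  have h4 : ((((Ioc 0 N).filter (fun x => x ≡ k [MOD m])).card : ℕ) : ℚ) ≤ (N : ℚ) / m + 1 := by
    have h5 : (((((Ioc 0 N).filter (fun x => x ≡ k [MOD m])).card : ℕ) : ℤ) : ℚ)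
      = ((max (⌊((N : ℚ) - (k : ℚ)) / (m : ℚ)⌋ - ⌊(((0 : ℕ) : ℚ) - (k : ℚ)) / (m : ℚ)⌋) 0 : ℤ) : ℚ) := by
      rw [h3]
    rw [Int.cast_natCast] at h5
    rw [h5]
    rw [Int.cast_max]
    refine max_le ?_ (by positivity)
    have h6 : ((⌊((N : ℚ) - (k : ℚ)) / (m : ℚ)⌋ : ℤ) : ℚ) ≤ ((N : ℚ) - (k : ℚ)) / (m : ℚ) := Int.floor_le _
    have h7 : (((0 : ℕ) : ℚ) - (k : ℚ)) / (m : ℚ) < ((⌊(((0 : ℕ) : ℚ) - (k : ℚ)) / (m : ℚ)⌋ : ℤ) : ℚ) + 1 :=
      Int.lt_floor_add_one _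
    rw [Int.cast_sub]
    have h8 : ((N : ℚ) - (k : ℚ)) / (m : ℚ) = (N : ℚ) / m + (((0 : ℕ) : ℚ) - (k : ℚ)) / (m : ℚ) := by
      push_cast; ring
    have h9 := h6.trans (le_of_eq h8)
    linarith
  have h9 : ((((Ioc 0 N).filter (fun x => x ≡ k [MOD m])).card : ℕ) : ℝ) ≤ (N : ℝ) / m + 1 := by
    have h11 := (Rat.cast_le (K := ℝ)).2 h4
    push_cast at h11
    exact h11
  have h10 : (N : ℝ) * (1 / (m : ℝ)) = (N : ℝ) / m := by ring
  rw [h10]
  linarith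

theorem rn_off (S : Finset ℕ) (hS : ∀ p ∈ S, p.Prime) (N k : ℕ) (hk : k ∈ Icc 1 N) :
    ∑ k' ∈ (Icc 1 N).erase k,
      ∏ p ∈ S, (((p : ℝ) - 2) + (if k ≡ k' [MOD p] then (1 : ℝ) else 0)) ≤
      (N : ℝ) * ∏ p ∈ S, (((p : ℝ) - 2) + 1 / (p : ℝ)) := by
  simp only [Finset.prod_add]
  rw [sum_comm, mul_sum]
  refine sum_le_sum fun T hT => ?_
  rw [← mul_sum]
  have hT0 : 0 ≤ ∏ p ∈ T, ((p : ℝ) - 2) := by
    refine prod_nonneg fun p hp => ?_
    have h2 : 2 ≤ p := (hS p (mem_powerset.1 hT hp)).two_le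
    have h3 : (2 : ℝ) ≤ (p : ℝ) := by exact_mod_cast h2
    linarith
  have hsd : ∀ p ∈ S \ T, p.Prime := fun p hp => hS p (mem_sdiff.1 hp).1
  have hm : 0 < ∏ p ∈ S \ T, p := prod_pos fun p hp => (hsd p hp).pos
  have h1 : ∀ k', ∏ p ∈ S \ T, (if k ≡ k' [MOD p] then (1 : ℝ) else 0)
      ≤ (if k ≡ k' [MOD (∏ p ∈ S \ T, p)] then (1 : ℝ) else 0) := by
    intro k'
    by_cases h : ∀ p ∈ S \ T, k ≡ k' [MOD p]
    · have h2 : k ≡ k' [MOD (∏ p ∈ S \ T, p)] := by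
        rw [Nat.modEq_iff_dvd]
        have h3 : ((∏ p ∈ S \ T, p : ℕ) : ℤ) = ∏ p ∈ S \ T, (p : ℤ) := by push_cast; rfl
        rw [h3]
        refine Finset.prod_dvd_of_coprime ?_ ?_
        · intro a ha b hb hab
          exact Nat.isCoprime_iff_coprime.2
            ((Nat.coprime_primes (hsd a ha) (hsd b hb)).2 hab)
        · intro p hp
          exact (Nat.modEq_iff_dvd).1 (h p hp)
      rw [if_pos h2]
      refine prod_le_one (fun p _ => by split_ifs <;> norm_num)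
        (fun p _ => by split_ifs <;> norm_num)
    · push Not at h
      obtain ⟨p, hp, hpp⟩ := h
      rw [prod_eq_zero hp (if_neg hpp)]
      split_ifs <;> norm_num
  have h2 : ∑ k' ∈ (Icc 1 N).erase k, ∏ p ∈ S \ T, (if k ≡ k' [MOD p] then (1 : ℝ) else 0)
      ≤ (N : ℝ) * ∏ p ∈ S \ T, (1 / (p : ℝ)) := by
    refine (sum_le_sum fun k' _ => h1 k').trans ((rn_count _ N k hm hk).trans ?_)
    rw [Finset.prod_div_distrib, prod_const_one]
    push_cast
    exact le_refl _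
  calc (∏ p ∈ T, ((p : ℝ) - 2)) *
        ∑ k' ∈ (Icc 1 N).erase k, ∏ p ∈ S \ T, (if k ≡ k' [MOD p] then (1 : ℝ) else 0)
      ≤ (∏ p ∈ T, ((p : ℝ) - 2)) * ((N : ℝ) * ∏ p ∈ S \ T, (1 / (p : ℝ))) :=
        mul_le_mul_of_nonneg_left h2 hT0
    _ = (N : ℝ) * ((∏ p ∈ T, ((p : ℝ) - 2)) * ∏ p ∈ S \ T, (1 / (p : ℝ))) := by ring

theorem rn_ind (S : Finset ℕ) (hS : ∀ p ∈ S, p.Prime) (x : ℕ) :
    (if (∏ p ∈ S, p).Coprime x then (1 : ℝ) else 0) = ∏ p ∈ S, (if p ∣ x then (0 : ℝ) else 1) := by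
  by_cases h : ∀ p ∈ S, ¬ p ∣ x
  · rw [if_pos, prod_congr rfl (fun p hp => if_neg (h p hp)), prod_const_one]
    exact Nat.Coprime.prod_left fun p hp => ((hS p hp).coprime_iff_not_dvd).2 (h p hp)
  · push Not at h
    obtain ⟨p, hp, hpx⟩ := h
    rw [prod_eq_zero (f := fun p => if p ∣ x then (0 : ℝ) else 1) hp (if_pos hpx), if_neg]
    intro hc
    exact ((hS p hp).coprime_iff_not_dvd).1 (hc.coprime_dvd_left (dvd_prod_of_mem _ hp)) hpx

theorem rn_main (S : Finset ℕ) (hS : ∀ p ∈ S, p.Prime) (N : ℕ) :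
    ∑ b ∈ range (∏ p ∈ S, p),
      ((((Icc 1 N).filter (fun k => (∏ p ∈ S, p).Coprime (b + k))).card : ℕ) : ℝ) ^ 2 ≤
      ((∏ p ∈ S, p : ℕ) : ℝ) * ((N : ℝ) * (∏ p ∈ S, (1 - 1 / (p : ℝ))) +
        ((N : ℝ) * ∏ p ∈ S, (1 - 1 / (p : ℝ))) ^ 2) := by
  have hp0 : ∀ p ∈ S, (p : ℝ) ≠ 0 := fun p hp => Nat.cast_ne_zero.2 (hS p hp).ne_zero
  have e1 : ∀ b, ((((Icc 1 N).filter (fun k => (∏ p ∈ S, p).Coprime (b + k))).card : ℕ) : ℝ) ^ 2
      = ∑ k ∈ Icc 1 N, ∑ k' ∈ Icc 1 N, ∏ p ∈ S,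
        ((if p ∣ b + k then (0 : ℝ) else 1) * (if p ∣ b + k' then (0 : ℝ) else 1)) := by
    intro b
    rw [← Finset.sum_boole, pow_two, Finset.sum_mul_sum]
    refine sum_congr rfl fun k _ => sum_congr rfl fun k' _ => ?_
    rw [rn_ind S hS, rn_ind S hS, ← prod_mul_distrib]
  have e2 : ∀ k k', ∑ b ∈ range (∏ p ∈ S, p), ∏ p ∈ S,
        ((if p ∣ b + k then (0 : ℝ) else 1) * (if p ∣ b + k' then (0 : ℝ) else 1))
      = ∏ p ∈ S, (((p : ℝ) - 2) + (if k ≡ k' [MOD p] then (1 : ℝ) else 0)) := by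
    intro k k'
    rw [rn_crt S (fun p b => (if p ∣ b + k then (0 : ℝ) else 1) *
      (if p ∣ b + k' then (0 : ℝ) else 1)) hS]
    · exact prod_congr rfl fun p hp => rn_pair p k k' (hS p hp).pos
    · intro p _ b
      have h : ∀ j, (p ∣ b % p + j) ↔ (p ∣ b + j) := by
        intro j
        rw [Nat.dvd_iff_mod_eq_zero, Nat.dvd_iff_mod_eq_zero, Nat.mod_add_mod]
      simp only [h]
  have e3 : ∑ b ∈ range (∏ p ∈ S, p),
      ((((Icc 1 N).filter (fun k => (∏ p ∈ S, p).Coprime (b + k))).card : ℕ) : ℝ) ^ 2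
      = ∑ k ∈ Icc 1 N, ∑ k' ∈ Icc 1 N,
        ∏ p ∈ S, (((p : ℝ) - 2) + (if k ≡ k' [MOD p] then (1 : ℝ) else 0)) := by
    simp only [e1]
    rw [sum_comm]
    refine sum_congr rfl fun k _ => ?_
    rw [sum_comm]
    exact sum_congr rfl fun k' _ => e2 k k'
  rw [e3]
  have d1 : ∀ k ∈ Icc 1 N, ∑ k' ∈ Icc 1 N,
        ∏ p ∈ S, (((p : ℝ) - 2) + (if k ≡ k' [MOD p] then (1 : ℝ) else 0))
      ≤ (N : ℝ) * ∏ p ∈ S, (((p : ℝ) - 2) + 1 / (p : ℝ)) + ∏ p ∈ S, ((p : ℝ) - 1) := by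
    intro k hk
    rw [← Finset.sum_erase_add _ _ hk]
    refine add_le_add (rn_off S hS N k hk) (le_of_eq ?_)
    refine prod_congr rfl fun p _ => ?_
    rw [if_pos (Nat.ModEq.refl k)]
    ring
  refine (sum_le_sum d1).trans (le_of_eq ?_)
  rw [sum_const, Nat.card_Icc, Nat.add_sub_cancel, nsmul_eq_mul]
  have f1 : ∏ p ∈ S, ((p : ℝ) - 1) = ((∏ p ∈ S, p : ℕ) : ℝ) * ∏ p ∈ S, (1 - 1 / (p : ℝ)) := by
    rw [Nat.cast_prod, ← prod_mul_distrib]
    refine prod_congr rfl fun p hp => ?_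
    have := hp0 p hp
    field_simp
  have f2 : ∏ p ∈ S, (((p : ℝ) - 2) + 1 / (p : ℝ)) =
      ((∏ p ∈ S, p : ℕ) : ℝ) * (∏ p ∈ S, (1 - 1 / (p : ℝ))) ^ 2 := by
    rw [Nat.cast_prod, ← prod_pow, ← prod_mul_distrib]
    refine prod_congr rfl fun p hp => ?_
    have := hp0 p hp
    field_simp
    ring
  rw [f1, f2]
  ring

theorem rn_second (n N : ℕ) :
    ∑ b ∈ range (primorial n), ((((Icc 1 N).filter (fun k => (primorial n).Coprime (b + k))).card : ℕ) : ℝ) ^ 2 ≤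
      (primorial n : ℝ) * ((N : ℝ) * (∏ p ∈ (Icc 1 n).filter Nat.Prime, (1 - 1 / (p : ℝ))) +
        ((N : ℝ) * ∏ p ∈ (Icc 1 n).filter Nat.Prime, (1 - 1 / (p : ℝ))) ^ 2) := by
  have h : primorial n = ∏ p ∈ (Icc 1 n).filter Nat.Prime, p := by
    rw [primorial]
    refine prod_congr ?_ fun _ _ => rfl
    ext p
    simp only [mem_filter, mem_range, mem_Icc]
    constructor
    · rintro ⟨a, b⟩
      have := b.two_le
      exact ⟨⟨by omega, by omega⟩, b⟩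
    · rintro ⟨a, b⟩
      exact ⟨by omega, b⟩
  rw [h]
  exact rn_main _ (fun p hp => (mem_filter.1 hp).2) N

end Pool.Agent.Y831.RC
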