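import Pool.Agent.Y831.RC6.Cov6b
import Pool.Agent.Y831.RC6.Rn
import Pool.Agent.Y831.RC5.Avg5

set_option autoImplicit false
set_option linter.unusedVariables false

/-! # Long runs in almost all short intervals: averaging over the classes -/

namespace Pool.Agent.Y831.RC

open Finset Filter Pool.Agent.H256R2.SC

open scoped Classical

/-- the interval `(n, n + H]` contains `F` consecutive integers with a prime factor `≤ y` -/
def LongRun (F y H : ℝ) (n : ℤ) : Prop :=
  ∃ a : ℤ, n ≤ a ∧ (a:ℝ) + F ≤ n + H ∧ ∀ k : ℕ, 1 ≤ k → (k:ℝ) ≤ F →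
    ∃ p : ℕ, p.Prime ∧ (p:ℝ) ≤ y ∧ (p:ℤ) ∣ a + k

theorem res_ne {P p : ℕ} (i : ℤ) (hi : (p:ℤ) ∣ P * i - 1) (b v v' : ℤ) (hne : v ≠ v')
    (hlt : |v' - v| < p) : ¬ ((p:ℤ) ∣ -(b + v) * i - -(b + v') * i) := by
  intro hdvd
  have h3 : (p : ℤ) ∣ (P : ℤ) * (-(b + v) * i - -(b + v') * i) := hdvd.mul_left _
  have h4 : (p : ℤ) ∣ (v' - v) * ((P : ℤ) * i - 1) := hi.mul_left _
  have h5 := dvd_sub h3 h4
  have h6 : (P : ℤ) * (-(b + v) * i - -(b + v') * i) - (v' - v) * ((P : ℤ) * i - 1) = v' - v := by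
    ring
  rw [h6] at h5
  have h7 := Int.eq_zero_of_abs_lt_dvd h5 hlt
  apply hne
  linarith

theorem class6 (w y₁ y₂ x F H len X M θ u₀ : ℝ) (b J q : ℕ) (hx0 : 0 ≤ x) (hxw : x ≤ w)
    (hF0 : 0 ≤ F) (hFq : F < q) (hJw : (J:ℝ) * q ≤ w) (hJH : (J:ℝ) * q ≤ H) (hy : y₁ ≤ y₂)
    (hxy : x ≤ y₂) (hθ : 0 ≤ θ) (hX : 0 ≤ X)
    (hcov : ∀ (G : Finset ℕ) (κ : ℕ → Type) [∀ j, Fintype (κ j)] [∀ j, DecidableEq (κ j)],
      (∀ j ∈ G, (Fintype.card (κ j) : ℝ) ≤ u₀) →
      ∀ res : ∀ j, ℕ → κ j → ℤ,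
      (∀ p : ℕ, p.Prime → w < p → ∀ j ∈ G, ∀ k l, k ≠ l →
        ¬ ((p : ℤ) ∣ res j p k - res j p l)) →
      (∀ p : ℕ, p.Prime → w < p → ∀ j ∈ G, ∀ j' ∈ G, j ≠ j' → ∀ k l,
        ¬ ((p : ℤ) ∣ res j p k - res j' p l)) →
      (J:ℝ) / 2 ≤ G.card →
      ∀ A B : ℤ, len ≤ (B : ℝ) - A →
      (((Ioc A B).filter (fun a => ∀ j ∈ G, ¬ ∀ k : κ j, ∃ p : ℕ, p.Prime ∧
        w < p ∧ (p : ℝ) ≤ y₁ ∧ (p : ℤ) ∣ a - res j p k)).card : ℝ) ≤ 7 * θ * ((B:ℝ) - A))
    (hgood : (J:ℝ) / 2 ≤ (((range J).filter (fun j => ((((Icc 1 ⌊F⌋₊).filter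
      (fun k => (primorial ⌊x⌋₊).Coprime (b + j * q + k))).card : ℕ) : ℝ) ≤ u₀)).card : ℝ))
    (hlen : len ≤ X / (primorial ⌊x⌋₊ : ℝ) - 1) :
    (((Ioc ⌊M⌋ ⌊M + X⌋).filter (fun n : ℤ => ¬ LongRun F y₂ H n ∧
      ((primorial ⌊x⌋₊ : ℕ) : ℤ) ∣ n - b)).card : ℝ) ≤
      7 * θ * (X / (primorial ⌊x⌋₊ : ℝ) + 1) := by
  set P : ℕ := primorial ⌊x⌋₊ with hPdef
  have hPpos : 0 < P := primorial_pos _
  have hPr : (0 : ℝ) < P := by exact_mod_cast hPpos
  have hP0 : (P : ℤ) ≠ 0 := by exact_mod_cast hPpos.ne'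
  have hfloor : ∀ p : ℕ, p ≤ ⌊x⌋₊ ↔ (p : ℝ) ≤ x := fun p => Nat.le_floor_iff hx0
  have hndvdP : ∀ p : ℕ, p.Prime → w < p → ¬ p ∣ P := by
    intro p hp hpX h
    have := (hfloor p).1 ((hp.dvd_primorial_iff).1 h)
    linarith
  -- inverses
  have hinv : ∀ p : ℕ, ∃ i : ℤ, p.Prime → ¬ p ∣ P → (p : ℤ) ∣ P * i - 1 := by
    intro p
    by_cases h : p.Prime ∧ ¬ p ∣ P
    · obtain ⟨i, hi⟩ := LG.inv_exists h.1 h.2
      exact ⟨i, fun _ _ => hi⟩
    · exact ⟨0, fun h1 h2 => absurd ⟨h1, h2⟩ h⟩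
  choose ip hip using hinv
  have hqF : ⌊F⌋₊ < q := (Nat.floor_lt hF0).2 hFq
  set U : ℕ → Finset ℕ := fun j => (Icc 1 ⌊F⌋₊).filter (fun k => P.Coprime (b + j * q + k))
    with hU
  set G : Finset ℕ := (range J).filter (fun j => (((U j).card : ℕ) : ℝ) ≤ u₀) with hG
  set A' : ℤ := ⌊(M - b) / P⌋ with hA'
  set B' : ℤ := ⌊(M + X - b) / P⌋ with hB'
  have hBA : X / (P : ℝ) - 1 ≤ (B' : ℝ) - A' := by
    have e1 := Int.floor_le ((M - b) / P)
    have e2 := Int.lt_floor_add_one ((M + X - b) / P)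
    have e3 : (M + X - b) / P = (M - b) / P + X / P := by
      field_simp
      ring
    linarith
  have hBA2 : (B' : ℝ) - A' ≤ X / (P : ℝ) + 1 := by
    have e1 := Int.floor_le ((M + X - b) / P)
    have e2 := Int.lt_floor_add_one ((M - b) / P)
    have e3 : (M + X - b) / P = (M - b) / P + X / P := by
      field_simp
      ring
    linarith
  have hlt : ∀ p : ℕ, w < p → ∀ j < J, ∀ j' < J, ∀ k ≤ ⌊F⌋₊, ∀ l ≤ ⌊F⌋₊,
      |(((j' * q + l : ℕ) : ℤ)) - ((j * q + k : ℕ) : ℤ)| < p := by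
    intro p hp j hj j' hj' k hk l hl
    have h1 : j * q + k < J * q := by
      calc j * q + k < j * q + q := by omega
        _ = (j + 1) * q := by ring
        _ ≤ J * q := Nat.mul_le_mul_right q hj
    have h2 : j' * q + l < J * q := by
      calc j' * q + l < j' * q + q := by omega
        _ = (j' + 1) * q := by ring
        _ ≤ J * q := Nat.mul_le_mul_right q hj'
    have h3 : J * q < p := by
      have : ((J * q : ℕ) : ℝ) < p := by push_cast; linarith
      exact_mod_cast this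
    rw [abs_lt]
    constructor <;> omega
  have hcount := hcov G (fun j => U j) (by
      intro j hj
      rw [hG, Finset.mem_filter] at hj
      rw [Fintype.card_coe]
      exact hj.2)
    (fun j p k => -((b : ℤ) + ((j * q + (k : ℕ) : ℕ) : ℤ)) * ip p) (by
      intro p hp hp1 j hj k l hkl
      have h1 := hip p hp (hndvdP p hp hp1)
      have hjJ := Finset.mem_range.1 (Finset.mem_filter.1 hj).1
      have hk := mem_Icc.1 (mem_filter.1 k.2).1
      have hl := mem_Icc.1 (mem_filter.1 l.2).1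
      apply res_ne (ip p) h1
      · intro he
        apply hkl
        apply Subtype.ext
        have : j * q + (k:ℕ) = j * q + (l:ℕ) := by exact_mod_cast he
        omega
      · exact hlt p hp1 j hjJ j hjJ k hk.2 l hl.2) (by
      intro p hp hp1 j hj j' hj' hjj k l
      have h1 := hip p hp (hndvdP p hp hp1)
      have hjJ := Finset.mem_range.1 (Finset.mem_filter.1 hj).1
      have hjJ' := Finset.mem_range.1 (Finset.mem_filter.1 hj').1
      have hk := mem_Icc.1 (mem_filter.1 k.2).1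
      have hl := mem_Icc.1 (mem_filter.1 l.2).1
      apply res_ne (ip p) h1
      · intro he
        have h2 : j * q + (k:ℕ) = j' * q + (l:ℕ) := by exact_mod_cast he
        rcases Nat.lt_or_gt_of_ne hjj with h3 | h3
        · have h4 : (j + 1) * q ≤ j' * q := Nat.mul_le_mul_right q h3
          have h5 : (j + 1) * q = j * q + q := by ring
          omega
        · have h4 : (j' + 1) * q ≤ j * q := Nat.mul_le_mul_right q h3
          have h5 : (j' + 1) * q = j' * q + q := by ring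
          omega
      · exact hlt p hp1 j hjJ j' hjJ' k hk.2 l hl.2)
    hgood A' B' (hlen.trans hBA)
  set S : Finset ℤ := (Ioc A' B').filter (fun a : ℤ => ∀ j ∈ G, ¬ ∀ k : U j,
      ∃ p : ℕ, p.Prime ∧ w < p ∧ (p : ℝ) ≤ y₁ ∧
        (p : ℤ) ∣ a - -((b : ℤ) + ((j * q + (k : ℕ) : ℕ) : ℤ)) * ip p) with hS
  have hsub : (Ioc ⌊M⌋ ⌊M + X⌋).filter (fun n : ℤ => ¬ LongRun F y₂ H n ∧
      ((P : ℕ) : ℤ) ∣ n - b) ⊆ S.image (fun m : ℤ => (b : ℤ) + P * m) := by
    intro n hn
    rw [Finset.mem_filter, Finset.mem_Ioc] at hn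
    obtain ⟨⟨hn1, hn2⟩, hn3, m, hm⟩ := hn
    have hnm : n = b + P * m := by linarith
    rw [Finset.mem_image]
    refine ⟨m, ?_, hnm.symm⟩
    have hnr : (n:ℝ) = b + P * m := by exact_mod_cast hnm
    rw [Int.floor_lt] at hn1
    rw [Int.le_floor] at hn2
    rw [hS, Finset.mem_filter, Finset.mem_Ioc]
    refine ⟨⟨?_, ?_⟩, ?_⟩
    · rw [hA', Int.floor_lt, div_lt_iff₀ hPr]
      linarith
    · rw [hB', Int.le_floor, le_div_iff₀ hPr]
      linarith
    · intro j hj hk
      apply hn3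
      have hjJ := Finset.mem_range.1 (Finset.mem_filter.1 hj).1
      refine ⟨n + ((j * q : ℕ) : ℤ), ?_, ?_, ?_⟩
      · have : (0:ℤ) ≤ ((j * q : ℕ) : ℤ) := Int.natCast_nonneg _
        linarith
      · have h1 : ((j:ℝ) + 1) * q ≤ J * q := by
          have h2 : (j:ℝ) + 1 ≤ J := by exact_mod_cast hjJ
          exact mul_le_mul_of_nonneg_right h2 (Nat.cast_nonneg q)
        push_cast
        linarith
      · intro k hk1 hkL
        have hkN : k ≤ ⌊F⌋₊ := Nat.le_floor hkL
        by_cases hkU : k ∈ U j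
        · obtain ⟨p, hp, hp1, hp2, hp3⟩ := hk ⟨k, hkU⟩
          refine ⟨p, hp, hp2.trans hy, ?_⟩
          have h1 := hip p hp (hndvdP p hp hp1)
          have h3 := hp3.mul_left (P : ℤ)
          have h4 := h1.mul_left ((b : ℤ) + ((j * q + k : ℕ) : ℤ))
          have h5 := dvd_sub h3 h4
          have h6 : (P : ℤ) * (m - -((b : ℤ) + ((j * q + k : ℕ) : ℤ)) * ip p) -
              ((b : ℤ) + ((j * q + k : ℕ) : ℤ)) * ((P : ℤ) * ip p - 1) =
              (n + ((j * q : ℕ) : ℤ)) + k := by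
            rw [hnm]
            push_cast
            ring
          have h7 : (p:ℤ) ∣ (P : ℤ) * (m - -((b : ℤ) + ((j * q + k : ℕ) : ℤ)) * ip p) -
              ((b : ℤ) + ((j * q + k : ℕ) : ℤ)) * ((P : ℤ) * ip p - 1) := h5
          rw [h6] at h7
          exact h7
        · have hkU' : ¬ P.Coprime (b + j * q + k) := fun h =>
            hkU (mem_filter.2 ⟨mem_Icc.2 ⟨hk1, hkN⟩, h⟩)
          rw [Nat.Prime.not_coprime_iff_dvd] at hkU'
          obtain ⟨p, hp, hp1, hp2⟩ := hkU'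
          have hpx : (p : ℝ) ≤ x := (hfloor p).1 ((hp.dvd_primorial_iff).1 hp1)
          refine ⟨p, hp, hpx.trans hxy, ?_⟩
          have h3 : (p : ℤ) ∣ (P : ℤ) * m := Dvd.dvd.mul_right (by exact_mod_cast hp1) _
          have h4 : (p : ℤ) ∣ ((b + j * q + k : ℕ) : ℤ) := by exact_mod_cast hp2
          have h5 : (n + ((j * q : ℕ) : ℤ)) + k = ((b + j * q + k : ℕ) : ℤ) + P * m := by
            rw [hnm]
            push_cast
            ring
          rw [h5]
          exact dvd_add h4 h3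
  have hcard : (((Ioc ⌊M⌋ ⌊M + X⌋).filter (fun n : ℤ => ¬ LongRun F y₂ H n ∧
      ((P : ℕ) : ℤ) ∣ n - b)).card : ℝ) ≤ S.card := by
    have h1 := (Finset.card_le_card hsub).trans Finset.card_image_le
    exact_mod_cast h1
  refine hcard.trans (hcount.trans ?_)
  exact mul_le_mul_of_nonneg_left hBA2 (by positivity)

/-! ### good classes -/

/-- the second moment method for the sizes -/
theorem few_large (P : ℕ) (f : ℕ → ℕ) (m S t : ℝ) (ht : 0 < t) (hm0 : 0 ≤ m) (hmS : m ≤ S)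
    (hS : 0 < S) (h1 : ((∑ b ∈ range P, f b : ℕ) : ℝ) = P * m)
    (h2 : ∑ b ∈ range P, ((f b : ℕ) : ℝ) ^ 2 ≤ P * (m + m ^ 2)) :
    (((range P).filter (fun b => (1 + t) * S < (f b : ℝ))).card : ℝ) ≤ P / (t ^ 2 * S) := by
  have h3 : ∑ b ∈ range P, ((f b : ℝ) - m) ^ 2 ≤ P * m := by
    have e1 : ∑ b ∈ range P, ((f b : ℝ) - m) ^ 2 = ∑ b ∈ range P, ((f b : ℕ) : ℝ) ^ 2 -
        2 * m * ∑ b ∈ range P, ((f b : ℕ) : ℝ) + P * m ^ 2 := by
      rw [Finset.mul_sum, ← Finset.sum_sub_distrib]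
      have : (P:ℝ) * m ^ 2 = ∑ b ∈ range P, m ^ 2 := by
        rw [Finset.sum_const, Finset.card_range, nsmul_eq_mul]
      rw [this, ← Finset.sum_add_distrib]
      refine Finset.sum_congr rfl fun b _ => ?_
      ring
    have e2 : ∑ b ∈ range P, ((f b : ℕ) : ℝ) = P * m := by
      rw [← h1]; push_cast; rfl
    rw [e1, e2]
    nlinarith
  set Bd := (range P).filter (fun b => (1 + t) * S < (f b : ℝ)) with hBd
  have h4 : (Bd.card : ℝ) * (t * S) ^ 2 ≤ P * m := by
    refine le_trans ?_ h3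
    calc (Bd.card : ℝ) * (t * S) ^ 2 = ∑ _b ∈ Bd, (t * S) ^ 2 := by
          rw [Finset.sum_const, nsmul_eq_mul]
      _ ≤ ∑ b ∈ Bd, ((f b : ℝ) - m) ^ 2 := by
          apply Finset.sum_le_sum
          intro b hb
          have h5 := (Finset.mem_filter.1 hb).2
          apply pow_le_pow_left₀ (by positivity)
          linarith
      _ ≤ _ := Finset.sum_le_sum_of_subset_of_nonneg (Finset.filter_subset _ _)
          (fun b _ _ => sq_nonneg _)
  rw [le_div_iff₀ (by positivity)]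
  have h5 : (Bd.card : ℝ) * (t ^ 2 * S) * S ≤ P * S := by
    calc (Bd.card : ℝ) * (t ^ 2 * S) * S = (Bd.card : ℝ) * (t * S) ^ 2 := by ring
      _ ≤ P * m := h4
      _ ≤ P * S := mul_le_mul_of_nonneg_left hmS (Nat.cast_nonneg _)
  exact le_of_mul_le_mul_right h5 hS

/-- shifting the classes -/
theorem shift_card (P a : ℕ) (g : ℕ → Prop) (hg : ∀ b, g b ↔ g (b % P)) (hP : 0 < P) :
    ((range P).filter (fun b => g (b + a))).card = ((range P).filter g).card := by
  apply Finset.card_bij (fun b _ => (b + a) % P)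
  · intro b hb
    rw [Finset.mem_filter, Finset.mem_range] at hb ⊢
    exact ⟨Nat.mod_lt _ hP, (hg _).1 hb.2⟩
  · intro b hb b' hb' h
    rw [Finset.mem_filter, Finset.mem_range] at hb hb'
    have h1 : b + a ≡ b' + a [MOD P] := h
    have h2 : b ≡ b' [MOD P] := Nat.ModEq.add_right_cancel' a h1
    exact Nat.ModEq.eq_of_lt_of_lt h2 hb.1 hb'.1
  · intro c hc
    rw [Finset.mem_filter, Finset.mem_range] at hc
    have h0 : (c + (P - a % P)) % P + a ≡ c [MOD P] := by
      have e1 : (c + (P - a % P)) % P + a ≡ c + (P - a % P) + a % P [MOD P] :=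
        Nat.ModEq.add (Nat.mod_modEq _ _) (Nat.mod_modEq _ _).symm
      have e2 : c + (P - a % P) + a % P = c + P := by
        have := Nat.mod_lt a hP
        omega
      rw [e2] at e1
      exact e1.trans (by simp [Nat.ModEq])
    refine ⟨(c + (P - a % P)) % P, ?_, ?_⟩
    · rw [Finset.mem_filter, Finset.mem_range]
      refine ⟨Nat.mod_lt _ hP, ?_⟩
      rw [hg, h0, Nat.mod_eq_of_lt hc.1]
      exact hc.2
    · exact Eq.trans (show ((c + (P - a % P)) % P + a) % P = c % P from h0)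
        (Nat.mod_eq_of_lt hc.1)

/-- most classes have many good windows -/
theorem few_bad (P J q : ℕ) (hP : 0 < P) (hJ : 0 < J) (g : ℕ → Prop)
    (hg : ∀ b, g b ↔ g (b % P)) (E : ℝ) (hE : (((range P).filter g).card : ℝ) ≤ E) :
    (((range P).filter (fun b => ¬ (J:ℝ) / 2 ≤
      (((range J).filter (fun j => ¬ g (b + j * q))).card : ℝ))).card : ℝ) ≤ 2 * E := by
  set Bd := (range P).filter (fun b => ¬ (J:ℝ) / 2 ≤
      (((range J).filter (fun j => ¬ g (b + j * q))).card : ℝ)) with hBd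
  have hJr : (0:ℝ) < J := by exact_mod_cast hJ
  have h1 : (Bd.card : ℝ) * (J / 2) ≤
      ∑ b ∈ range P, (((range J).filter (fun j => g (b + j * q))).card : ℝ) := by
    calc (Bd.card : ℝ) * (J / 2) = ∑ _b ∈ Bd, (J:ℝ) / 2 := by
          rw [Finset.sum_const, nsmul_eq_mul]
      _ ≤ ∑ b ∈ Bd, (((range J).filter (fun j => g (b + j * q))).card : ℝ) := by
          apply Finset.sum_le_sum
          intro b hb
          have h2 := (Finset.mem_filter.1 hb).2
          push Not at h2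
          have h3 := Finset.card_filter_add_card_filter_not (s := range J)
            (fun j => g (b + j * q))
          rw [Finset.card_range] at h3
          have h4 : (((range J).filter (fun j => g (b + j * q))).card : ℝ) +
              (((range J).filter (fun j => ¬ g (b + j * q))).card : ℝ) = J := by exact_mod_cast h3
          linarith
      _ ≤ _ := Finset.sum_le_sum_of_subset_of_nonneg (Finset.filter_subset _ _)
          (fun b _ _ => Nat.cast_nonneg _)
  have h2 : ∑ b ∈ range P, (((range J).filter (fun j => g (b + j * q))).card : ℝ) ≤ J * E := by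
    have e1 : ∑ b ∈ range P, ((range J).filter (fun j => g (b + j * q))).card =
        ∑ j ∈ range J, ((range P).filter (fun b => g (b + j * q))).card := by
      simp only [Finset.card_filter]
      exact Finset.sum_comm
    have e2 : ∑ j ∈ range J, ((range P).filter (fun b => g (b + j * q))).card =
        J * ((range P).filter g).card := by
      rw [Finset.sum_congr rfl fun j _ => shift_card P (j * q) g hg hP, Finset.sum_const,
        Finset.card_range, smul_eq_mul]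
    have e3 : ∑ b ∈ range P, (((range J).filter (fun j => g (b + j * q))).card : ℝ) =
        J * (((range P).filter g).card : ℝ) := by
      have := e1.trans e2
      exact_mod_cast this
    rw [e3]
    exact mul_le_mul_of_nonneg_left hE hJr.le
  have h3 : (Bd.card : ℝ) * J ≤ (2 * E) * J := by linarith
  exact le_of_mul_le_mul_right h3 hJr

/-- all classes -/
theorem classes6 (R : Finset ℤ) (P : ℕ) (hP : 0 < P) (Gd : ℕ → Prop)
    (v₁ v₂ : ℝ) (hv₁ : 0 ≤ v₁) (hv₂ : 0 ≤ v₂) (E : ℝ)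
    (h1 : ∀ b ∈ range P, Gd b → ((R.filter (fun n : ℤ => (P : ℤ) ∣ n - b)).card : ℝ) ≤ v₁)
    (h2 : ∀ b ∈ range P, ((R.filter (fun n : ℤ => (P : ℤ) ∣ n - b)).card : ℝ) ≤ v₂)
    (h3 : (((range P).filter (fun b => ¬ Gd b)).card : ℝ) ≤ E) :
    (R.card : ℝ) ≤ P * v₁ + E * v₂ := by
  have e1 : R = (range P).biUnion (fun b => R.filter (fun n : ℤ => (P : ℤ) ∣ n - b)) := by
    ext n
    rw [Finset.mem_biUnion]
    constructor
    · intro hn
      have hP' : (0:ℤ) < P := by exact_mod_cast hP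
      refine ⟨(n % P).toNat, ?_, ?_⟩
      · rw [Finset.mem_range]
        have h4 := Int.emod_lt_of_pos n hP'
        have h5 := Int.emod_nonneg n hP'.ne'
        omega
      · rw [Finset.mem_filter]
        refine ⟨hn, ?_⟩
        have h5 := Int.emod_nonneg n hP'.ne'
        rw [Int.toNat_of_nonneg h5]
        exact Int.dvd_self_sub_emod
    · rintro ⟨b, _, hb⟩
      exact (Finset.mem_filter.1 hb).1
  have e2 : (R.card : ℝ) ≤ ∑ b ∈ range P, ((R.filter (fun n : ℤ => (P : ℤ) ∣ n - b)).card : ℝ) := by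
    have := Finset.card_biUnion_le (s := range P)
      (t := fun b => R.filter (fun n : ℤ => (P : ℤ) ∣ n - b))
    rw [← e1] at this
    exact_mod_cast this
  refine e2.trans ?_
  rw [← Finset.sum_filter_add_sum_filter_not (range P) Gd]
  have e3 : ∑ b ∈ (range P).filter Gd, ((R.filter (fun n : ℤ => (P : ℤ) ∣ n - b)).card : ℝ) ≤
      P * v₁ := by
    calc _ ≤ ∑ _b ∈ (range P).filter Gd, v₁ := by
          apply Finset.sum_le_sum
          intro b hb
          rw [Finset.mem_filter] at hb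
          exact h1 b hb.1 hb.2
      _ = ((range P).filter Gd).card * v₁ := by rw [Finset.sum_const, nsmul_eq_mul]
      _ ≤ P * v₁ := by
          apply mul_le_mul_of_nonneg_right _ hv₁
          have := Finset.card_filter_le (range P) Gd
          rw [Finset.card_range] at this
          exact_mod_cast this
  have e4 : ∑ b ∈ (range P).filter (fun b => ¬ Gd b),
      ((R.filter (fun n : ℤ => (P : ℤ) ∣ n - b)).card : ℝ) ≤ E * v₂ := by
    calc _ ≤ ∑ _b ∈ (range P).filter (fun b => ¬ Gd b), v₂ := by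
          apply Finset.sum_le_sum
          intro b hb
          exact h2 b (Finset.mem_filter.1 hb).1
      _ = ((range P).filter (fun b => ¬ Gd b)).card * v₂ := by
          rw [Finset.sum_const, nsmul_eq_mul]
      _ ≤ E * v₂ := mul_le_mul_of_nonneg_right h3 hv₂
  linarith

/-- the trivial bound for one class -/
theorem class_triv (P : ℕ) (hP : 0 < P) (X M : ℝ) (hX : 0 ≤ X) (b : ℕ) (g : ℤ → Prop) :
    (((Ioc ⌊M⌋ ⌊M + X⌋).filter (fun n : ℤ => g n ∧ (P : ℤ) ∣ n - b)).card : ℝ) ≤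
      X / (P : ℝ) + 1 := by
  have hPr : (0 : ℝ) < P := by exact_mod_cast hP
  set A' : ℤ := ⌊(M - b) / P⌋ with hA'
  set B' : ℤ := ⌊(M + X - b) / P⌋ with hB'
  have hBA2 : (B' : ℝ) - A' ≤ X / (P : ℝ) + 1 := by
    have e1 := Int.floor_le ((M + X - b) / P)
    have e2 := Int.lt_floor_add_one ((M - b) / P)
    have e3 : (M + X - b) / P = (M - b) / P + X / P := by
      field_simp
      ring
    linarith
  have hAB : A' ≤ B' := by
    apply Int.floor_le_floor
    apply div_le_div_of_nonneg_right _ hPr.le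
    linarith
  have hsub : (Ioc ⌊M⌋ ⌊M + X⌋).filter (fun n : ℤ => g n ∧ (P : ℤ) ∣ n - b) ⊆
      (Ioc A' B').image (fun m : ℤ => (b : ℤ) + P * m) := by
    intro n hn
    rw [Finset.mem_filter, Finset.mem_Ioc] at hn
    obtain ⟨⟨hn1, hn2⟩, _, m, hm⟩ := hn
    have hnm : n = b + P * m := by linarith
    rw [Finset.mem_image]
    refine ⟨m, ?_, hnm.symm⟩
    have hnr : (n:ℝ) = b + P * m := by exact_mod_cast hnm
    rw [Int.floor_lt] at hn1
    rw [Int.le_floor] at hn2
    rw [Finset.mem_Ioc]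
    refine ⟨?_, ?_⟩
    · rw [hA', Int.floor_lt, div_lt_iff₀ hPr]
      linarith
    · rw [hB', Int.le_floor, le_div_iff₀ hPr]
      linarith
  have h1 := (Finset.card_le_card hsub).trans Finset.card_image_le
  rw [Int.card_Ioc] at h1
  have h2 : (((B' - A').toNat : ℕ) : ℝ) = (B' : ℝ) - A' := by
    have : (((B' - A').toNat : ℕ) : ℤ) = B' - A' := Int.toNat_of_nonneg (by linarith)
    have h3 : (((B' - A').toNat : ℕ) : ℝ) = ((B' - A' : ℤ) : ℝ) := by exact_mod_cast this
    rw [h3]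
    push_cast
    ring
  have h3 : (((Ioc ⌊M⌋ ⌊M + X⌋).filter (fun n : ℤ => g n ∧ (P : ℤ) ∣ n - b)).card : ℝ) ≤
      (((B' - A').toNat : ℕ) : ℝ) := by exact_mod_cast h1
  linarith

end Pool.Agent.Y831.RC
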