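import Pool.Agent.Y831.RC6.Mean6

set_option autoImplicit false
set_option linter.unusedSectionVars false
set_option linter.unusedVariables false

/-! # Many windows: the second moment method -/

namespace Pool.Agent.Y831.RC

open Finset Pool.Agent.H256R2.SC

open scoped Classical

/-- the second moment method -/
theorem cheb_abs {α ι : Type} (𝒜 : Finset α) (G : Finset ι) (a : ι → α → ℝ) (N θ D₀ : ℝ)
    (hN0 : 0 ≤ N) (hθ : 0 ≤ θ) (hN : (𝒜.card : ℝ) = N) (h0 : ∀ j ∈ G, ∀ m ∈ 𝒜, 0 ≤ a j m)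
    (hD : ∀ j ∈ G, ∀ m ∈ 𝒜, a j m ≤ D₀)
    (T1 : ∀ j ∈ G, (1 - 2 * θ) * N ≤ ∑ m ∈ 𝒜, a j m)
    (T2 : ∀ j ∈ G, ∀ j' ∈ G, j ≠ j' → ∑ m ∈ 𝒜, a j m * a j' m ≤ (1 + 2 * θ) * N)
    (hGp : 0 < (G.card : ℝ)) (hG : D₀ ^ 2 ≤ θ * G.card) :
    ((𝒜.filter (fun m => ∀ j ∈ G, a j m = 0)).card : ℝ) ≤ 7 * θ * N := by
  set g : ℝ := (G.card : ℝ) with hg
  have h1 : ∑ m ∈ 𝒜, (∑ j ∈ G, a j m) ^ 2 ≤ g * (D₀ ^ 2 * N) + g ^ 2 * ((1 + 2 * θ) * N) := by
    have e1 : ∀ m, (∑ j ∈ G, a j m) ^ 2 = ∑ j ∈ G, ∑ j' ∈ G, a j m * a j' m := by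
      intro m
      rw [sq, Finset.sum_mul_sum]
    rw [Finset.sum_congr rfl fun m _ => e1 m, Finset.sum_comm]
    have e2 : ∀ j ∈ G, ∑ m ∈ 𝒜, ∑ j' ∈ G, a j m * a j' m ≤ D₀ ^ 2 * N + g * ((1 + 2 * θ) * N) := by
      intro j hj
      rw [Finset.sum_comm]
      have e3 : ∀ j' ∈ G, ∑ m ∈ 𝒜, a j m * a j' m ≤
          (if j' = j then D₀ ^ 2 * N else 0) + (1 + 2 * θ) * N := by
        intro j' hj'
        have hp : 0 ≤ (1 + 2 * θ) * N := by positivity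
        by_cases h : j' = j
        · rw [if_pos h, h]
          have e4 : ∑ m ∈ 𝒜, a j m * a j m ≤ ∑ _m ∈ 𝒜, D₀ ^ 2 := by
            apply Finset.sum_le_sum
            intro m hm
            have e5 := h0 j hj m hm
            have e6 := hD j hj m hm
            rw [← sq]
            exact pow_le_pow_left₀ e5 e6 2
          rw [Finset.sum_const, nsmul_eq_mul, hN] at e4
          linarith
        · rw [if_neg h, zero_add]
          exact T2 j hj j' hj' (fun he => h he.symm)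
      refine (Finset.sum_le_sum e3).trans ?_
      rw [Finset.sum_add_distrib, Finset.sum_ite_eq' G j, if_pos hj, Finset.sum_const,
        nsmul_eq_mul]
    refine (Finset.sum_le_sum e2).trans ?_
    rw [Finset.sum_const, nsmul_eq_mul, ← hg]
    nlinarith
  have h2 : g * ((1 - 2 * θ) * N) ≤ ∑ m ∈ 𝒜, ∑ j ∈ G, a j m := by
    rw [Finset.sum_comm]
    calc g * ((1 - 2 * θ) * N) = ∑ _j ∈ G, (1 - 2 * θ) * N := by
          rw [Finset.sum_const, nsmul_eq_mul]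
      _ ≤ _ := Finset.sum_le_sum T1
  have h3 : ∑ m ∈ 𝒜, (∑ j ∈ G, a j m - g) ^ 2 ≤ g * (D₀ ^ 2 * N) + 6 * θ * g ^ 2 * N := by
    have e1 : ∑ m ∈ 𝒜, (∑ j ∈ G, a j m - g) ^ 2 =
        ∑ m ∈ 𝒜, (∑ j ∈ G, a j m) ^ 2 - 2 * g * ∑ m ∈ 𝒜, ∑ j ∈ G, a j m + N * g ^ 2 := by
      rw [Finset.mul_sum, ← Finset.sum_sub_distrib, ← hN, ← nsmul_eq_mul, ← Finset.sum_const,
        ← Finset.sum_add_distrib]
      refine Finset.sum_congr rfl fun m _ => ?_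
      ring
    rw [e1]
    have e2 := mul_le_mul_of_nonneg_left h2 (show 0 ≤ 2 * g by positivity)
    linarith
  have h4 : ((𝒜.filter (fun m => ∀ j ∈ G, a j m = 0)).card : ℝ) * g ^ 2 ≤
      ∑ m ∈ 𝒜, (∑ j ∈ G, a j m - g) ^ 2 := by
    calc ((𝒜.filter (fun m => ∀ j ∈ G, a j m = 0)).card : ℝ) * g ^ 2 =
          ∑ m ∈ 𝒜.filter (fun m => ∀ j ∈ G, a j m = 0), g ^ 2 := by
          rw [Finset.sum_const, nsmul_eq_mul]
      _ ≤ ∑ m ∈ 𝒜.filter (fun m => ∀ j ∈ G, a j m = 0), (∑ j ∈ G, a j m - g) ^ 2 := by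
          apply Finset.sum_le_sum
          intro m hm
          rw [Finset.sum_eq_zero (Finset.mem_filter.1 hm).2]
          apply le_of_eq
          ring
      _ ≤ _ := Finset.sum_le_sum_of_subset_of_nonneg (Finset.filter_subset _ _)
          (fun m _ _ => sq_nonneg _)
  have h5 : g * (D₀ ^ 2 * N) ≤ g * (θ * g * N) :=
    mul_le_mul_of_nonneg_left (mul_le_mul_of_nonneg_right hG hN0) hGp.le
  have h6 : ((𝒜.filter (fun m => ∀ j ∈ G, a j m = 0)).card : ℝ) * g ^ 2 ≤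
      (7 * θ * N) * g ^ 2 := by
    refine h4.trans (h3.trans ?_)
    linarith
  exact le_of_mul_le_mul_right h6 (by positivity)

/-! ### the integers -/

variable {PP₁ PP₂ : Finset ℕ}

/-- reciprocals -/
noncomputable def rcp (PP : Finset ℕ) : Fin PP.card → ℝ := fun i => 1 / ((emb PP i : ℕ) : ℝ)

/-- the two-block colouring of an integer -/
noncomputable def col2 {κ : Type} [Fintype κ] [DecidableEq κ] (PP₁ PP₂ : Finset ℕ) (res : ℕ → κ → ℤ) (a : ℤ) :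
    Col (PP₁.card + PP₂.card) κ := Fin.append (colr PP₁ res a) (colr PP₂ res a)

theorem event_cnt {κ : Type} [Fintype κ] [DecidableEq κ] (h₁ : ∀ p ∈ PP₁, p.Prime)
    (h₂ : ∀ p ∈ PP₂, p.Prime) (hd : Disjoint PP₁ PP₂) {res : ℕ → κ → ℤ}
    (hi : ∀ p ∈ PP₁ ∪ PP₂, ∀ k l, k ≠ l → ¬ ((p : ℤ) ∣ res p k - res p l))
    (A B : ℤ) (hAB : A ≤ B) (D : Col (PP₁.card + PP₂.card) κ) :
    |((((Ioc A B).filter (fun a => ∀ i, D i ≠ none → col2 PP₁ PP₂ res a i = D i)).card : ℕ) : ℝ) -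
        ((B:ℝ) - A) * nu (Fin.append (rcp PP₁) (rcp PP₂)) D| ≤ 1 := by
  obtain ⟨r, hr⟩ := event_two h₁ h₂ hd (fun p hp => hi p (Finset.mem_union_left _ hp))
    (fun p hp => hi p (Finset.mem_union_right _ hp)) D
  have h1 : ((Ioc A B).filter (fun a => ∀ i, D i ≠ none → col2 PP₁ PP₂ res a i = D i)) =
      (Ioc A B).filter (fun a => ((qn PP₁ (fstc D) * qn PP₂ (sndc D) : ℕ) : ℤ) ∣ a - r) := by
    apply Finset.filter_congr
    intro a _
    exact hr a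
  have hq : 0 < qn PP₁ (fstc D) * qn PP₂ (sndc D) :=
    Nat.mul_pos (Nat.pos_of_ne_zero (qn_squarefree h₁ _).ne_zero)
      (Nat.pos_of_ne_zero (qn_squarefree h₂ _).ne_zero)
  rw [h1, nu_append]
  have e1 : nu (rcp PP₁) (fstc D) = 1 / ((qn PP₁ (fstc D) : ℕ) : ℝ) := nu_eq PP₁ (fstc D)
  have e2 : nu (rcp PP₂) (sndc D) = 1 / ((qn PP₂ (sndc D) : ℕ) : ℝ) := nu_eq PP₂ (sndc D)
  rw [e1, e2]
  have h2 := LG.count_Ioc A B hAB _ hq r
  have h3 : ((B:ℝ) - A) * (1 / ((qn PP₁ (fstc D) : ℕ) : ℝ) * (1 / ((qn PP₂ (sndc D) : ℕ) : ℝ))) =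
      ((B:ℝ) - A) / ((qn PP₁ (fstc D) * qn PP₂ (sndc D) : ℕ) : ℝ) := by
    push_cast
    rw [one_div_mul_one_div, mul_one_div]
  rw [h3]
  exact h2

theorem col2_eq {κ : Type} [Fintype κ] [DecidableEq κ] {res : ℕ → κ → ℤ}
    (hi : ∀ p ∈ PP₁ ∪ PP₂, ∀ k l, k ≠ l → ¬ ((p : ℤ) ∣ res p k - res p l)) (a : ℤ) (k : κ)
    (h : ∃ i, col2 PP₁ PP₂ res a i = some k) : ∃ p ∈ PP₁ ∪ PP₂, (p : ℤ) ∣ a - res p k := by
  obtain ⟨i, hi'⟩ := h
  revert hi'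
  refine Fin.addCases (fun j hj => ?_) (fun j hj => ?_) i
  · unfold col2 at hj
    rw [Fin.append_left] at hj
    have h1 := (colr_eq (fun p hp => hi p (Finset.mem_union_left _ hp)) a j k).mp hj
    exact ⟨emb PP₁ j, Finset.mem_union_left _ (emb_mem PP₁ j), h1⟩
  · unfold col2 at hj
    rw [Fin.append_right] at hj
    have h1 := (colr_eq (fun p hp => hi p (Finset.mem_union_right _ hp)) a j k).mp hj
    exact ⟨emb PP₂ j, Finset.mem_union_right _ (emb_mem PP₂ j), h1⟩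

section
variable {κ κ' : Type} [Fintype κ] [DecidableEq κ] [Fintype κ'] [DecidableEq κ']

theorem colr_lc {PP : Finset ℕ} (res : ℕ → κ → ℤ) (res' : ℕ → κ' → ℤ)
    (hi : ∀ p ∈ PP, ∀ k l, k ≠ l → ¬ ((p : ℤ) ∣ Sum.elim (res p) (res' p) k - Sum.elim (res p) (res' p) l))
    (a : ℤ) (i : Fin PP.card) :
    lc1 (colr PP (fun p => Sum.elim (res p) (res' p)) a i) = colr PP res a i := by
  apply Option.ext
  intro k
  have h1 := colr_eq (PP := PP) (res := fun p => Sum.elim (res p) (res' p)) hi a i (Sum.inl k)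
  have h2 := colr_eq (PP := PP) (res := res) (fun p hp k l hkl => by
    have := hi p hp (Sum.inl k) (Sum.inl l) (fun h => hkl (Sum.inl.inj h))
    simpa using this) a i k
  rw [Sum.elim_inl] at h1
  rw [lc1_iff, h1, h2]

theorem colr_rc {PP : Finset ℕ} (res : ℕ → κ → ℤ) (res' : ℕ → κ' → ℤ)
    (hi : ∀ p ∈ PP, ∀ k l, k ≠ l → ¬ ((p : ℤ) ∣ Sum.elim (res p) (res' p) k - Sum.elim (res p) (res' p) l))
    (a : ℤ) (i : Fin PP.card) :
    rc1 (colr PP (fun p => Sum.elim (res p) (res' p)) a i) = colr PP res' a i := by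
  apply Option.ext
  intro k
  have h1 := colr_eq (PP := PP) (res := fun p => Sum.elim (res p) (res' p)) hi a i (Sum.inr k)
  have h2 := colr_eq (PP := PP) (res := res') (fun p hp k l hkl => by
    have := hi p hp (Sum.inr k) (Sum.inr l) (fun h => hkl (Sum.inr.inj h))
    simpa using this) a i k
  rw [Sum.elim_inr] at h1
  rw [rc1_iff, h1, h2]

theorem col2_lc (res : ℕ → κ → ℤ) (res' : ℕ → κ' → ℤ)
    (hi : ∀ p ∈ PP₁ ∪ PP₂, ∀ k l, k ≠ l →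
      ¬ ((p : ℤ) ∣ Sum.elim (res p) (res' p) k - Sum.elim (res p) (res' p) l))
    (a : ℤ) : lc (col2 PP₁ PP₂ (fun p => Sum.elim (res p) (res' p)) a) = col2 PP₁ PP₂ res a := by
  funext i
  unfold lc col2
  refine Fin.addCases (fun j => ?_) (fun j => ?_) i
  · rw [Fin.append_left, Fin.append_left]
    exact colr_lc res res' (fun p hp => hi p (Finset.mem_union_left _ hp)) a j
  · rw [Fin.append_right, Fin.append_right]
    exact colr_lc res res' (fun p hp => hi p (Finset.mem_union_right _ hp)) a j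

theorem col2_rc (res : ℕ → κ → ℤ) (res' : ℕ → κ' → ℤ)
    (hi : ∀ p ∈ PP₁ ∪ PP₂, ∀ k l, k ≠ l →
      ¬ ((p : ℤ) ∣ Sum.elim (res p) (res' p) k - Sum.elim (res p) (res' p) l))
    (a : ℤ) : rc (col2 PP₁ PP₂ (fun p => Sum.elim (res p) (res' p)) a) = col2 PP₁ PP₂ res' a := by
  funext i
  unfold rc col2
  refine Fin.addCases (fun j => ?_) (fun j => ?_) i
  · rw [Fin.append_left, Fin.append_left]
    exact colr_rc res res' (fun p hp => hi p (Finset.mem_union_left _ hp)) a j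
  · rw [Fin.append_right, Fin.append_right]
    exact colr_rc res res' (fun p hp => hi p (Finset.mem_union_right _ hp)) a j

end

/-- the data of the sieve weights -/
structure Data6 (PP₁ PP₂ : Finset ℕ) where
  bl : Fin PP₁.card → ℕ
  B : ℕ
  M : ℕ → ℕ
  h : Finset (Fin PP₂.card) → ℝ
  Q : ℝ
  J : ℕ
  R₂ : ℝ

/-- the weight -/
noncomputable def Data6.G (D : Data6 PP₁ PP₂) (κ : Type) [Fintype κ] [DecidableEq κ]
    (x : Col (PP₁.card + PP₂.card) κ) : ℝ :=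
  GG (rcp PP₂) (yT (fun i => ((emb PP₂ i : ℕ) : ℝ)) D.h D.Q) (fun k => BHk D.bl D.B D.M k) x

/-- the majorant of the uncovered colours -/
noncomputable def Data6.N (D : Data6 PP₁ PP₂) (κ : Type) [Fintype κ] [DecidableEq κ]
    (x : Col (PP₁.card + PP₂.card) κ) : ℝ := MM (fun k => BHk D.bl D.B D.M k) D.J D.R₂ x

/-- the normalisation -/
noncomputable def Data6.Z (D : Data6 PP₁ PP₂) (κ : Type) [Fintype κ] [DecidableEq κ] : ℝ :=
  Zw (om (rcp PP₁) : Col PP₂.card κ → ℝ) (rcp PP₂) D.h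

/-- what the sieve weights do -/
structure Good6 (D : Data6 PP₁ PP₂) (u₀ θ Bd L₁ L₂ : ℝ) : Prop where
  prime₁ : ∀ p ∈ PP₁, p.Prime
  prime₂ : ∀ p ∈ PP₂, p.Prime
  disj : Disjoint PP₁ PP₂
  Zone : ∀ (κ : Type) [Fintype κ] [DecidableEq κ], (Fintype.card κ : ℝ) ≤ u₀ → 1 ≤ D.Z κ
  mean : ∀ (κ : Type) [Fintype κ] [DecidableEq κ], (Fintype.card κ : ℝ) ≤ u₀ →
    (1 - θ) * D.Z κ ≤ EE (Fin.append (rcp PP₁) (rcp PP₂))
      (fun x => (D.G κ x) ^ 2 * (1 - D.N κ x))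
  lw₁ : ∀ (κ : Type) [Fintype κ] [DecidableEq κ], (Fintype.card κ : ℝ) ≤ u₀ →
    Lw L₁ (fun x => (D.G κ x) ^ 2 * (1 - D.N κ x))
  nn : ∀ (κ : Type) [Fintype κ] [DecidableEq κ] (x : Col (PP₁.card + PP₂.card) κ), 0 ≤ D.N κ x
  pt : ∀ (κ : Type) [Fintype κ] [DecidableEq κ], (Fintype.card κ : ℝ) ≤ u₀ →
    ∀ x, D.N κ x < 1 → (∀ k, ∃ i, x i = some k) ∧ |D.G κ x| ≤ Bd
  pair : ∀ (κ κ' : Type) [Fintype κ] [DecidableEq κ] [Fintype κ'] [DecidableEq κ'],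
    (Fintype.card κ : ℝ) ≤ u₀ → (Fintype.card κ' : ℝ) ≤ u₀ →
    EE (Fin.append (rcp PP₁) (rcp PP₂)) (fun X : Col (PP₁.card + PP₂.card) (κ ⊕ κ') =>
      (D.G κ (lc X)) ^ 2 * (D.G κ' (rc X)) ^ 2) ≤ (1 + θ) * (D.Z κ * D.Z κ')
  lw₂ : ∀ (κ κ' : Type) [Fintype κ] [DecidableEq κ] [Fintype κ'] [DecidableEq κ'],
    (Fintype.card κ : ℝ) ≤ u₀ → (Fintype.card κ' : ℝ) ≤ u₀ →
    Lw L₂ (fun X : Col (PP₁.card + PP₂.card) (κ ⊕ κ') =>
      (D.G κ (lc X)) ^ 2 * (D.G κ' (rc X)) ^ 2)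

theorem Good6.cheb {D : Data6 PP₁ PP₂} {u₀ θ Bd L₁ L₂ : ℝ} (hD : Good6 D u₀ θ Bd L₁ L₂)
    (hθ : 0 ≤ θ) (hBd : 0 ≤ Bd)
    {ι : Type} (G : Finset ι) (κ : ι → Type) [∀ j, Fintype (κ j)] [∀ j, DecidableEq (κ j)]
    (hκ : ∀ j ∈ G, (Fintype.card (κ j) : ℝ) ≤ u₀) (res : ∀ j, ℕ → κ j → ℤ)
    (hi : ∀ p ∈ PP₁ ∪ PP₂, ∀ j ∈ G, ∀ k l, k ≠ l → ¬ ((p : ℤ) ∣ res j p k - res j p l))
    (hi2 : ∀ p ∈ PP₁ ∪ PP₂, ∀ j ∈ G, ∀ j' ∈ G, j ≠ j' → ∀ k l,
      ¬ ((p : ℤ) ∣ res j p k - res j' p l))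
    (A B : ℤ) (hAB : A ≤ B) (hL₁ : L₁ ≤ θ * ((B:ℝ) - A)) (hL₂ : L₂ ≤ θ * ((B:ℝ) - A))
    (hGp : 0 < (G.card : ℝ)) (hG : (Bd ^ 2) ^ 2 ≤ θ * G.card) :
    (((Ioc A B).filter (fun a => ∀ j ∈ G, ¬ ∀ k : κ j, ∃ p ∈ PP₁ ∪ PP₂,
      (p : ℤ) ∣ a - res j p k)).card : ℝ) ≤ 7 * θ * ((B:ℝ) - A) := by
  have hABr : (A:ℝ) ≤ B := by exact_mod_cast hAB
  have hN0 : 0 ≤ (B:ℝ) - A := by linarith
  have hcard : (((Ioc A B).card : ℕ) : ℝ) = (B:ℝ) - A := by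
    rw [Int.card_Ioc]
    have : (((B - A).toNat : ℕ) : ℤ) = B - A := Int.toNat_of_nonneg (by linarith)
    have h2 : (((B - A).toNat : ℕ) : ℝ) = ((B - A : ℤ) : ℝ) := by exact_mod_cast this
    rw [h2]
    push_cast
    ring
  set a : ι → ℤ → ℝ := fun j m =>
    if D.N (κ j) (col2 PP₁ PP₂ (res j) m) < 1 then
      (D.G (κ j) (col2 PP₁ PP₂ (res j) m)) ^ 2 / D.Z (κ j) else 0 with ha
  have h0 : ∀ j ∈ G, ∀ m ∈ Ioc A B, 0 ≤ a j m := by
    intro j hj m _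
    have := hD.Zone (κ j) (hκ j hj)
    simp only [ha]
    split_ifs
    · positivity
    · exact le_rfl
  have hDb : ∀ j ∈ G, ∀ m ∈ Ioc A B, a j m ≤ Bd ^ 2 := by
    intro j hj m _
    have hZ := hD.Zone (κ j) (hκ j hj)
    simp only [ha]
    split_ifs with h
    · have h2 := (hD.pt (κ j) (hκ j hj) _ h).2
      have h3 : (D.G (κ j) (col2 PP₁ PP₂ (res j) m)) ^ 2 ≤ Bd ^ 2 := by
        rw [← sq_abs]
        exact pow_le_pow_left₀ (abs_nonneg _) h2 2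
      exact (div_le_self (sq_nonneg _) hZ).trans h3
    · positivity
  have hU : ∀ j ∈ G, ∀ m, D.G (κ j) (col2 PP₁ PP₂ (res j) m) ^ 2 *
      (1 - D.N (κ j) (col2 PP₁ PP₂ (res j) m)) ≤ D.Z (κ j) * a j m := by
    intro j hj m
    have hZ := hD.Zone (κ j) (hκ j hj)
    have hnn := hD.nn (κ j) (col2 PP₁ PP₂ (res j) m)
    simp only [ha]
    split_ifs with h
    · rw [mul_div_cancel₀ _ (by positivity)]
      have h2 := sq_nonneg (D.G (κ j) (col2 PP₁ PP₂ (res j) m))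
      nlinarith
    · rw [mul_zero]
      push Not at h
      exact mul_nonpos_of_nonneg_of_nonpos (sq_nonneg _) (by linarith)
  have T1 : ∀ j ∈ G, (1 - 2 * θ) * ((B:ℝ) - A) ≤ ∑ m ∈ Ioc A B, a j m := by
    intro j hj
    have hZ := hD.Zone (κ j) (hκ j hj)
    have h1 := transfer_w (Ioc A B) (col2 PP₁ PP₂ (res j)) (Fin.append (rcp PP₁) (rcp PP₂))
      ((B:ℝ) - A) 1 L₁ zero_le_one
      (event_cnt hD.prime₁ hD.prime₂ hD.disj (fun p hp => hi p hp j hj) A B hAB) _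
      (hD.lw₁ (κ j) (hκ j hj))
    have h2 := (abs_le.1 h1).1
    have h3 := mul_le_mul_of_nonneg_left (hD.mean (κ j) (hκ j hj)) hN0
    have h4 := Finset.sum_le_sum (s := Ioc A B) (fun m _ => hU j hj m)
    rw [← Finset.mul_sum] at h4
    have h5 : D.Z (κ j) * ((1 - 2 * θ) * ((B:ℝ) - A)) ≤ D.Z (κ j) * ∑ m ∈ Ioc A B, a j m := by
      have h6 : 0 ≤ θ * ((B:ℝ) - A) := by positivity
      have h7 : θ * ((B:ℝ) - A) ≤ D.Z (κ j) * (θ * ((B:ℝ) - A)) := by nlinarith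
      linarith
    exact le_of_mul_le_mul_left h5 (by linarith)
  have T2 : ∀ j ∈ G, ∀ j' ∈ G, j ≠ j' →
      ∑ m ∈ Ioc A B, a j m * a j' m ≤ (1 + 2 * θ) * ((B:ℝ) - A) := by
    intro j hj j' hj' hjj
    have hZ := hD.Zone (κ j) (hκ j hj)
    have hZ' := hD.Zone (κ j') (hκ j' hj')
    have hie : ∀ p ∈ PP₁ ∪ PP₂, ∀ k l : κ j ⊕ κ j', k ≠ l →
        ¬ ((p : ℤ) ∣ Sum.elim (res j p) (res j' p) k - Sum.elim (res j p) (res j' p) l) := by
      intro p hp k l hkl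
      rcases k with k | k <;> rcases l with l | l
      · exact hi p hp j hj k l (fun h => hkl (by rw [h]))
      · exact hi2 p hp j hj j' hj' hjj k l
      · exact hi2 p hp j' hj' j hj hjj.symm k l
      · exact hi p hp j' hj' k l (fun h => hkl (by rw [h]))
    have h1 := transfer_w (Ioc A B) (col2 PP₁ PP₂ (fun p => Sum.elim (res j p) (res j' p)))
      (Fin.append (rcp PP₁) (rcp PP₂)) ((B:ℝ) - A) 1 L₂ zero_le_one
      (event_cnt hD.prime₁ hD.prime₂ hD.disj hie A B hAB) _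
      (hD.lw₂ (κ j) (κ j') (hκ j hj) (hκ j' hj'))
    simp only [col2_lc (res j) (res j') hie, col2_rc (res j) (res j') hie] at h1
    have h2 := (abs_le.1 h1).2
    have h3 := mul_le_mul_of_nonneg_left (hD.pair (κ j) (κ j') (hκ j hj) (hκ j' hj')) hN0
    set ZZ := D.Z (κ j) * D.Z (κ j') with hZZ
    have hZZ1 : 1 ≤ ZZ := by nlinarith
    have h4 : ZZ * ∑ m ∈ Ioc A B, a j m * a j' m ≤
        ∑ m ∈ Ioc A B, D.G (κ j) (col2 PP₁ PP₂ (res j) m) ^ 2 *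
          D.G (κ j') (col2 PP₁ PP₂ (res j') m) ^ 2 := by
      rw [Finset.mul_sum]
      apply Finset.sum_le_sum
      intro m _
      simp only [ha]
      have e1 := sq_nonneg (D.G (κ j) (col2 PP₁ PP₂ (res j) m))
      have e2 := sq_nonneg (D.G (κ j') (col2 PP₁ PP₂ (res j') m))
      split_ifs
      · apply le_of_eq
        rw [hZZ]
        have z1 : D.Z (κ j) ≠ 0 := by positivity
        have z2 : D.Z (κ j') ≠ 0 := by positivity
        field_simp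
      · rw [mul_zero, mul_zero]; positivity
      · rw [zero_mul, mul_zero]; positivity
      · rw [zero_mul, mul_zero]; positivity
    have h5 : ZZ * ∑ m ∈ Ioc A B, a j m * a j' m ≤ ZZ * ((1 + 2 * θ) * ((B:ℝ) - A)) := by
      have h6 : 0 ≤ θ * ((B:ℝ) - A) := by positivity
      have h7 : θ * ((B:ℝ) - A) ≤ ZZ * (θ * ((B:ℝ) - A)) := by nlinarith
      linarith
    exact le_of_mul_le_mul_left h5 (by linarith)
  have hmain := cheb_abs (Ioc A B) G a ((B:ℝ) - A) θ (Bd ^ 2) hN0 hθ hcard h0 hDb T1 T2 hGp hG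
  refine le_trans ?_ hmain
  have hsub : ((Ioc A B).filter (fun a => ∀ j ∈ G, ¬ ∀ k : κ j, ∃ p ∈ PP₁ ∪ PP₂,
      (p : ℤ) ∣ a - res j p k)) ⊆ (Ioc A B).filter (fun m => ∀ j ∈ G, a j m = 0) := by
    intro m hm
    rw [Finset.mem_filter] at hm ⊢
    refine ⟨hm.1, fun j hj => ?_⟩
    simp only [ha]
    rw [if_neg]
    intro h
    apply hm.2 j hj
    intro k
    exact col2_eq (fun p hp => hi p hp j hj) m k ((hD.pt (κ j) (hκ j hj) _ h).1 k)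
  exact_mod_cast Finset.card_le_card hsub

end Pool.Agent.Y831.RC
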