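import Pool.Agent.Y831.RC5.Blk5

set_option autoImplicit false
set_option linter.unusedSectionVars false

/-! # Two windows: the joint law of the colourings -/

namespace Pool.Agent.Y831.RC

open Finset Pool.Agent.H256R2.SC

variable {n n₁ n₂ : ℕ} {κ κ' : Type} [Fintype κ] [DecidableEq κ] [Fintype κ'] [DecidableEq κ']

/-- left projection of a colour -/
def lc1 (c : Option (κ ⊕ κ')) : Option κ :=
  match c with
  | some (Sum.inl k) => some k
  | _ => none

/-- right projection of a colour -/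
def rc1 (c : Option (κ ⊕ κ')) : Option κ' :=
  match c with
  | some (Sum.inr k) => some k
  | _ => none

/-- left projection of a colouring -/
def lc (X : Col n (κ ⊕ κ')) : Col n κ := fun i => lc1 (X i)

/-- right projection of a colouring -/
def rc (X : Col n (κ ⊕ κ')) : Col n κ' := fun i => rc1 (X i)

theorem lc1_iff (c : Option (κ ⊕ κ')) (k : κ) : lc1 c = some k ↔ c = some (Sum.inl k) := by
  rcases c with _ | (a | b) <;> simp [lc1]

theorem rc1_iff (c : Option (κ ⊕ κ')) (k : κ') : rc1 c = some k ↔ c = some (Sum.inr k) := by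
  rcases c with _ | (a | b) <;> simp [rc1]

theorem lcrc_inj1 {c d : Option (κ ⊕ κ')} (h1 : lc1 c = lc1 d) (h2 : rc1 c = rc1 d) : c = d := by
  rcases c with _ | (a | b) <;> rcases d with _ | (a' | b') <;> simp_all [lc1, rc1]

theorem lcrc_inj : Function.Injective (fun X : Col n (κ ⊕ κ') => (lc X, rc X)) := by
  intro X Y h
  funext i
  have h1 := congrFun (Prod.ext_iff.1 h).1 i
  have h2 := congrFun (Prod.ext_iff.1 h).2 i
  exact lcrc_inj1 h1 h2

theorem card_sum_real : (Fintype.card (κ ⊕ κ') : ℝ) = (Fintype.card κ : ℝ) + Fintype.card κ' := by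
  rw [Fintype.card_sum]
  push_cast
  rfl

/-- comparison with the product law -/
theorem EE_couple (g t : Fin n → ℝ) (hg : ∀ i, 0 ≤ g i)
    (hu : ∀ i, ((Fintype.card κ : ℝ) + Fintype.card κ') * g i ≤ 1 / 2)
    (ht : ∀ i, 2 * (((Fintype.card κ : ℝ) + Fintype.card κ') * g i) ≤ t i)
    (A : Col n κ → ℝ) (B : Col n κ' → ℝ) (hA : ∀ x, 0 ≤ A x) (hB : ∀ x, 0 ≤ B x) :
    EE g (fun X : Col n (κ ⊕ κ') => A (lc X) * B (rc X)) ≤
      EE g (fun x : Col n κ => (∏ i, if x i ≠ none then 1 + t i else 1) * A x) *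
      EE g (fun x : Col n κ' => (∏ i, if x i ≠ none then 1 + t i else 1) * B x) := by
  set u : ℝ := (Fintype.card κ : ℝ) with hu'
  set v : ℝ := (Fintype.card κ' : ℝ) with hv'
  have hu0 : 0 ≤ u := Nat.cast_nonneg _
  have hv0 : 0 ≤ v := Nat.cast_nonneg _
  have hug : ∀ i, u * g i ≤ 1 / 2 := fun i => by
    have := mul_nonneg hv0 (hg i)
    have := hu i
    linarith
  have hvg : ∀ i, v * g i ≤ 1 / 2 := fun i => by
    have := mul_nonneg hu0 (hg i)
    have := hu i
    linarith
  have ht0 : ∀ i, 0 ≤ t i := fun i => le_trans (by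
    have := hg i
    positivity) (ht i)
  have hw₁ : ∀ i (c : Option κ), 0 ≤ wt (g i) c := fun i c => wt_nonneg (hg i) (by linarith [hug i]) c
  have hw₂ : ∀ i (c : Option κ'), 0 ≤ wt (g i) c := fun i c => wt_nonneg (hg i) (by linarith [hvg i]) c
  set P : Col n κ → ℝ := fun x => (∏ i, wt (g i) (x i)) *
    ((∏ i, if x i ≠ none then 1 + t i else 1) * A x) with hP
  set Q : Col n κ' → ℝ := fun x => (∏ i, wt (g i) (x i)) *
    ((∏ i, if x i ≠ none then 1 + t i else 1) * B x) with hQ
  have hom : ∀ (l : Type) (x : Fin n → Option l), 0 ≤ ∏ i, (if x i ≠ none then 1 + t i else 1) := by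
    intro l x
    apply Finset.prod_nonneg
    intro i _
    have := ht0 i
    split_ifs <;> linarith
  have hP0 : ∀ x, 0 ≤ P x := fun x =>
    mul_nonneg (Finset.prod_nonneg fun i _ => hw₁ i _) (mul_nonneg (hom κ x) (hA x))
  have hQ0 : ∀ x, 0 ≤ Q x := fun x =>
    mul_nonneg (Finset.prod_nonneg fun i _ => hw₂ i _) (mul_nonneg (hom κ' x) (hB x))
  have hloc : ∀ i (c : Option (κ ⊕ κ')), wt (g i) c ≤
      (wt (g i) (lc1 c) * (if lc1 c ≠ none then 1 + t i else 1)) *
      (wt (g i) (rc1 c) * (if rc1 c ≠ none then 1 + t i else 1)) := by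
    intro i c
    have h0 := hg i
    have h1 := hug i
    have h2 := hvg i
    have h3 := ht i
    have h4 := mul_nonneg hu0 h0
    have h5 := mul_nonneg hv0 h0
    have h6 := mul_nonneg h4 h5
    rcases c with _ | (a | b)
    · simp only [lc1, rc1, wt, ne_eq, not_true_eq_false, if_false, mul_one]
      rw [card_sum_real, ← hu', ← hv']
      nlinarith
    · simp only [lc1, rc1, wt, ne_eq, reduceCtorEq, not_false_eq_true, if_true, not_true_eq_false,
        if_false, mul_one]
      rw [← hv']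
      have h7 : 1 ≤ (1 + t i) * (1 - v * g i) := by
        have h8 : 2 * (v * g i) ≤ t i := by linarith
        have h9 : 0 ≤ 1 - v * g i := by linarith
        nlinarith
      have := mul_le_mul_of_nonneg_left h7 h0
      linarith
    · simp only [lc1, rc1, wt, ne_eq, reduceCtorEq, not_false_eq_true, if_true, not_true_eq_false,
        if_false, mul_one]
      rw [← hu']
      have h7 : 1 ≤ (1 + t i) * (1 - u * g i) := by
        have h8 : 2 * (u * g i) ≤ t i := by linarith
        have h9 : 0 ≤ 1 - u * g i := by linarith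
        nlinarith
      have := mul_le_mul_of_nonneg_left h7 h0
      linarith
  have hw : ∀ i (c : Option (κ ⊕ κ')), 0 ≤ wt (g i) c := fun i c =>
    wt_nonneg (hg i) (by rw [card_sum_real]; linarith [hu i]) c
  have h1 : EE g (fun X : Col n (κ ⊕ κ') => A (lc X) * B (rc X)) ≤
      ∑ X : Col n (κ ⊕ κ'), P (lc X) * Q (rc X) := by
    unfold EE
    apply Finset.sum_le_sum
    intro X _
    have h2 : ∏ i, wt (g i) (X i) ≤ (∏ i, (wt (g i) (lc X i) * (if lc X i ≠ none then 1 + t i else 1))) *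
        ∏ i, (wt (g i) (rc X i) * (if rc X i ≠ none then 1 + t i else 1)) := by
      rw [← Finset.prod_mul_distrib]
      apply Finset.prod_le_prod
      · intro i _
        exact hw i _
      · intro i _
        exact hloc i (X i)
    rw [Finset.prod_mul_distrib, Finset.prod_mul_distrib] at h2
    have h3 : 0 ≤ A (lc X) * B (rc X) := mul_nonneg (hA _) (hB _)
    refine (mul_le_mul_of_nonneg_right h2 h3).trans (le_of_eq ?_)
    simp only [hP, hQ]
    ring
  refine h1.trans ?_
  have h4 : EE g (fun x : Col n κ => (∏ i, if x i ≠ none then 1 + t i else 1) * A x) =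
      ∑ x, P x := rfl
  have h5 : EE g (fun x : Col n κ' => (∏ i, if x i ≠ none then 1 + t i else 1) * B x) =
      ∑ x, Q x := rfl
  rw [h4, h5, Finset.sum_mul_sum, ← Finset.sum_product']
  have h6 : ∑ X : Col n (κ ⊕ κ'), P (lc X) * Q (rc X) =
      ∑ q ∈ (univ : Finset (Col n (κ ⊕ κ'))).image (fun X => (lc X, rc X)), P q.1 * Q q.2 := by
    rw [Finset.sum_image]
    intro X _ Y _ h
    exact lcrc_inj h
  rw [h6]
  apply Finset.sum_le_sum_of_subset_of_nonneg
  · intro q _
    simp
  · intro q _ _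
    exact mul_nonneg (hP0 _) (hQ0 _)

/-- the local bound for the weight of all hits -/
theorem local_all (g t : ℝ) (hg : 0 ≤ g) (ht : 0 ≤ t) (hu : (Fintype.card κ : ℝ) * g ≤ 1)
    (Y : Option κ → ℝ) :
    ∑ c, wt g c * (if c ≠ none then 1 + t else 1) * (∑ a, psi1 g a c * Y a) ^ 2 ≤
      ∑ a : Option κ, (match a with
        | none => 1 + 3 * t * ((Fintype.card κ : ℝ) * g)
        | some _ => (1 + 6 * t) * g) * (Y a) ^ 2 := by
  set u : ℝ := (Fintype.card κ : ℝ) with hu'
  set S := ∑ k, Y (some k) with hS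
  set T := ∑ k, (Y (some k)) ^ 2 with hT
  have hu0 : 0 ≤ u := Nat.cast_nonneg _
  have hsplit : ∑ c, wt g c * (if c ≠ none then 1 + t else 1) * (∑ a, psi1 g a c * Y a) ^ 2 =
      (∑ c, wt g c * (∑ a, psi1 g a c * Y a) ^ 2) +
      g * t * ∑ k : κ, ((Y none - g * S) + Y (some k)) ^ 2 := by
    have h1 : ∀ c : Option κ, wt g c * (if c ≠ none then 1 + t else 1) *
        (∑ a, psi1 g a c * Y a) ^ 2 = wt g c * (∑ a, psi1 g a c * Y a) ^ 2 +
          (if c ≠ none then t * wt g c * (∑ a, psi1 g a c * Y a) ^ 2 else 0) := by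
      intro c
      split_ifs
      · ring
      · ring
    rw [Finset.sum_congr rfl (fun c _ => h1 c), Finset.sum_add_distrib]
    congr 1
    rw [Fintype.sum_option]
    simp only [ne_eq, not_true_eq_false, if_false, reduceCtorEq, not_false_eq_true, if_true,
      zero_add]
    rw [Finset.mul_sum]
    refine Finset.sum_congr rfl fun k _ => ?_
    rw [inner_some]
    simp only [wt]
    ring
  have hbet : ∑ a : Option κ, (match a with
        | none => 1 + 3 * t * (u * g)
        | some _ => (1 + 6 * t) * g) * (Y a) ^ 2 =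
      (1 + 3 * t * (u * g)) * (Y none) ^ 2 + (1 + 6 * t) * g * T := by
    rw [Fintype.sum_option]
    simp only
    rw [← Finset.mul_sum]
  rw [hsplit, hbet, local_id, ← hS]
  have hCS : S ^ 2 ≤ u * T := by
    have := sq_sum_le_card_mul_sum_sq (s := (univ : Finset κ)) (f := fun k => Y (some k))
    rw [Finset.card_univ] at this
    exact this
  have h3 : ∑ k : κ, ((Y none - g * S) + Y (some k)) ^ 2 ≤
      3 * (u * (Y none) ^ 2 + T + u * (g ^ 2 * S ^ 2)) := by
    calc ∑ k : κ, ((Y none - g * S) + Y (some k)) ^ 2 ≤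
          ∑ k : κ, 3 * ((Y none) ^ 2 + (Y (some k)) ^ 2 + g ^ 2 * S ^ 2) := by
          apply Finset.sum_le_sum
          intro k _
          nlinarith [sq_nonneg (Y none + g * S), sq_nonneg (Y none - Y (some k)),
            sq_nonneg (g * S + Y (some k))]
      _ = _ := by
          rw [← Finset.mul_sum, Finset.sum_add_distrib, Finset.sum_add_distrib, Finset.sum_const,
            Finset.sum_const, Finset.card_univ, nsmul_eq_mul, nsmul_eq_mul]
  have hT0 : 0 ≤ T := Finset.sum_nonneg fun k _ => sq_nonneg _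
  have h4 : u * (g ^ 2 * S ^ 2) ≤ T := by
    have e1 : u * (g ^ 2 * S ^ 2) ≤ u * (g ^ 2 * (u * T)) := by
      apply mul_le_mul_of_nonneg_left _ hu0
      exact mul_le_mul_of_nonneg_left hCS (by positivity)
    have e2 : u * (g ^ 2 * (u * T)) = (u * g) ^ 2 * T := by ring
    have e3 : (u * g) ^ 2 ≤ 1 := by
      have : 0 ≤ u * g := by positivity
      nlinarith
    have e4 := mul_le_mul_of_nonneg_right e3 hT0
    linarith
  have h5 : g * t * ∑ k : κ, ((Y none - g * S) + Y (some k)) ^ 2 ≤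
      g * t * (3 * (u * (Y none) ^ 2 + T + T)) := by
    apply mul_le_mul_of_nonneg_left _ (by positivity)
    refine h3.trans ?_
    linarith
  have h6 : 0 ≤ g ^ 2 * S ^ 2 := by positivity
  nlinarith

/-! ### the majorants -/

theorem SS_congr (J : ℕ) (k : κ) (x : Col n κ) (l : κ') (x' : Col n κ')
    (h : ∀ i, x i = some k ↔ x' i = some l) : SS J k x = SS J l x' := by
  unfold SS
  refine Finset.sum_congr rfl fun s _ => ?_
  congr 1
  have : (∀ i ∈ s, x i = some k) ↔ ∀ i ∈ s, x' i = some l :=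
    forall_congr' fun i => imp_congr_right fun _ => h i
  simp only [this]

theorem BHk_congr (bl : Fin n → ℕ) (B : ℕ) (M : ℕ → ℕ) (k : κ) (x : Col n κ) (l : κ')
    (x' : Col n κ') (h : ∀ i, x i = some k ↔ x' i = some l) :
    BHk bl B M k x = BHk bl B M l x' := by
  unfold BHk
  refine Finset.prod_congr rfl fun j _ => ?_
  apply SS_congr
  intro i
  rw [mask_iff, mask_iff, h i]

theorem BHk_lc (bl : Fin n → ℕ) (B : ℕ) (M : ℕ → ℕ) (k : κ) (X : Col n (κ ⊕ κ')) :
    BHk bl B M (Sum.inl k : κ ⊕ κ') X = BHk bl B M k (lc X) :=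
  BHk_congr bl B M _ _ _ _ fun i => (lc1_iff (X i) k).symm

theorem BHk_rc (bl : Fin n → ℕ) (B : ℕ) (M : ℕ → ℕ) (k : κ') (X : Col n (κ ⊕ κ')) :
    BHk bl B M (Sum.inr k : κ ⊕ κ') X = BHk bl B M k (rc X) :=
  BHk_congr bl B M _ _ _ _ fun i => (rc1_iff (X i) k).symm

theorem BH_pair {g₁ : Fin n₁ → ℝ} (bl : Fin n₁ → ℕ) (B : ℕ) (M : ℕ → ℕ) {m τ : ℝ}
    (HB : BHyp g₁ (fun k : κ ⊕ κ' => BHk bl B M k) m τ) (K : Finset κ) (K' : Finset κ')
    (hK : (K.card : ℝ) + K'.card ≤ m) :
    EE g₁ (fun X : Col n₁ (κ ⊕ κ') => (∏ k ∈ K, (BHk bl B M k (lc X)) ^ 2) *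
      ∏ k ∈ K', (BHk bl B M k (rc X)) ^ 2) ≤ (1 + τ) * rho g₁ (K.card + K'.card) := by
  have h1 := HB.up (K.disjSum K') (by rw [Finset.card_disjSum]; push_cast; exact hK)
    (fun _ => 2) (fun _ => ⟨by norm_num, by norm_num⟩)
  rw [Finset.card_disjSum] at h1
  refine le_trans (le_of_eq ?_) h1
  congr 1
  funext X
  rw [Finset.prod_disjSum]
  congr 1
  · refine Finset.prod_congr rfl fun k _ => ?_
    rw [BHk_lc]
  · refine Finset.prod_congr rfl fun k _ => ?_
    rw [BHk_rc]

/-- coefficient sums -/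
theorem Lw_lc {B : ℝ} {F : Col n κ → ℝ} (h : Lw B F) :
    Lw B (fun X : Col n (κ ⊕ κ') => F (lc X)) := by
  obtain ⟨f, h1, h2, _⟩ := h
  have h3 := Lw_sum (n := n) (κ := κ ⊕ κ') univ (fun D : Col n κ => |f D| * 1)
    (fun D X => f D * ind (fun i => (D i).map Sum.inl) X)
    (fun D _ => Lw_smul _ (Lw_ind _))
  have h4 : (fun X : Col n (κ ⊕ κ') => F (lc X)) = fun X => ∑ D : Col n κ,
      f D * ind (fun i => (D i).map Sum.inl) X := by
    funext X
    rw [h1]
    refine Finset.sum_congr rfl fun D _ => ?_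
    congr 1
    unfold ind
    have : (∀ i, D i ≠ none → lc X i = D i) ↔
        (∀ i, (D i).map (Sum.inl : κ → κ ⊕ κ') ≠ none → X i = (D i).map Sum.inl) := by
      apply forall_congr'
      intro i
      cases hD : D i with
      | none => simp
      | some k =>
        simp only [ne_eq, reduceCtorEq, not_false_eq_true, true_imp_iff, Option.map_some]
        exact lc1_iff (X i) k
    simp only [this]
  rw [h4]
  refine Lw_mono ?_ h3
  simpa using h2

theorem Lw_rc {B : ℝ} {F : Col n κ' → ℝ} (h : Lw B F) :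
    Lw B (fun X : Col n (κ ⊕ κ') => F (rc X)) := by
  obtain ⟨f, h1, h2, _⟩ := h
  have h3 := Lw_sum (n := n) (κ := κ ⊕ κ') univ (fun D : Col n κ' => |f D| * 1)
    (fun D X => f D * ind (fun i => (D i).map Sum.inr) X)
    (fun D _ => Lw_smul _ (Lw_ind _))
  have h4 : (fun X : Col n (κ ⊕ κ') => F (rc X)) = fun X => ∑ D : Col n κ',
      f D * ind (fun i => (D i).map Sum.inr) X := by
    funext X
    rw [h1]
    refine Finset.sum_congr rfl fun D _ => ?_
    congr 1
    unfold ind
    have : (∀ i, D i ≠ none → rc X i = D i) ↔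
        (∀ i, (D i).map (Sum.inr : κ' → κ ⊕ κ') ≠ none → X i = (D i).map Sum.inr) := by
      apply forall_congr'
      intro i
      cases hD : D i with
      | none => simp
      | some k =>
        simp only [ne_eq, reduceCtorEq, not_false_eq_true, true_imp_iff, Option.map_some]
        exact rc1_iff (X i) k
    simp only [this]
  rw [h4]
  refine Lw_mono ?_ h3
  simpa using h2

end Pool.Agent.Y831.RC
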