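import Pool.Agent.Y831.RC6.Second6

set_option autoImplicit false
set_option linter.unusedSectionVars false
set_option linter.unusedVariables false

/-! # One window: the first moment with a small loss, and the pointwise facts -/

namespace Pool.Agent.Y831.RC

open Finset Pool.Agent.H256R2.SC

variable {n n₁ n₂ : ℕ} {κ : Type} [Fintype κ] [DecidableEq κ]

/-- the sum of the majorants -/
noncomputable def MM (R : κ → Col n₁ κ → ℝ) (J : ℕ) (R₂ : ℝ) (x : Col (n₁ + n₂) κ) : ℝ :=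
  ∑ k, R k (fstc x) * (SS J k (sndc x) + 1 / R₂)

/-- the sieve weight as a function of the full colouring -/
noncomputable def GG (g₂ : Fin n₂ → ℝ) (y : Col n₂ κ → ℝ) (R : κ → Col n₁ κ → ℝ)
    (x : Col (n₁ + n₂) κ) : ℝ := V5 g₂ y R (fstc x) (sndc x)

section
variable {p g₂ : Fin n₂ → ℝ} {h : Finset (Fin n₂) → ℝ} {z K v₀ : ℝ} {g₁ : Fin n₁ → ℝ}
  {R : κ → Col n₁ κ → ℝ} {m τ : ℝ}

theorem lower6 (H : HypS p g₂ h z K v₀) (HR : BHyp g₁ R m τ) (hg₁ : ∀ i, 0 ≤ g₁ i)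
    (hg₁u : ∀ i, (Fintype.card κ : ℝ) * g₁ i ≤ 1 / 2) (Q δ T θ : ℝ) (hθ0 : 0 < θ) (hθ1 : θ ≤ 1)
    (hug : ∀ i, (Fintype.card κ : ℝ) * g₂ i ≤ 1)
    (hδ : ∀ D : Col n₂ κ, qq p D ≤ Q → 2 * ∑ i with D i ≠ none, g₂ i ≤ δ)
    (hug4 : (Fintype.card κ : ℝ) * δ ≤ θ / 2) (hQ0 : 0 < Q)
    (hT : ∑ D : Col n₂ κ with Q / z < qq p D, om g₁ D * ((yy h D) ^ 2 * nu g₂ D) ≤ T)
    (hT8 : T ≤ θ / 4 * Zw (om g₁ : Col n₂ κ → ℝ) g₂ h)
    (hZ0 : 0 ≤ Zw (om g₁ : Col n₂ κ → ℝ) g₂ h) :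
    (1 - θ / 2) * Zw (om g₁ : Col n₂ κ → ℝ) g₂ h ≤
      EE g₁ (fun x₁ : Col n₁ κ => EE g₂ (fun x₂ : Col n₂ κ => (V5 g₂ (yT p h Q) R x₁ x₂) ^ 2)) := by
  have hw : ∀ i (c : Option κ), 0 ≤ wt (g₂ i) c := fun i c => wt_nonneg (H.g0 i).le (hug i) c
  have hw₁ : ∀ i (c : Option κ), 0 ≤ wt (g₁ i) c := fun i c =>
    wt_nonneg (hg₁ i) (by linarith [hg₁u i]) c
  set B : Col n₂ κ → ℝ := fun D =>
    ∏ i, (nu1 (g₂ i) (D i) * nu1 (1 - (Fintype.card κ : ℝ) * g₂ i) (D i)) with hB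
  have hB0 : ∀ D, 0 ≤ B D := by
    intro D
    apply Finset.prod_nonneg
    intro i _
    cases D i with
    | none => simp [nu1]
    | some k =>
      simp only [nu1]
      exact mul_nonneg (H.g0 i).le (by linarith [hug i])
  have h1 : EE g₁ (fun x₁ : Col n₁ κ => ∑ D : Col n₂ κ, B D * (yT p h Q D) ^ 2 *
      ∏ k ∈ cols D, (R k x₁) ^ 2) ≤
      EE g₁ (fun x₁ : Col n₁ κ => EE g₂ (fun x₂ : Col n₂ κ => (V5 g₂ (yT p h Q) R x₁ x₂) ^ 2)) := by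
    apply EE_mono hw₁
    intro x₁
    refine le_trans (le_of_eq ?_) (tensor_lower (κ := κ) g₂
      (fun i c => nu1 (g₂ i) c * nu1 (1 - (Fintype.card κ : ℝ) * g₂ i) c) hw
      (by
        intro i c
        cases c with
        | none => simp [nu1]
        | some k =>
          simp only [nu1]
          exact mul_nonneg (H.g0 i).le (by linarith [hug i]))
      (fun i Y => local_lower (g₂ i) (H.g0 i).le Y) (fun D => yT p h Q D * ∏ k ∈ cols D, R k x₁))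
    refine Finset.sum_congr rfl fun D _ => ?_
    simp only [hB]
    rw [Finset.prod_pow]
    ring
  refine le_trans ?_ h1
  rw [EE_sum]
  have h2 : ∀ D : Col n₂ κ, (if qq p D ≤ Q then
      (1 - θ / 4) * (om g₁ D * ((yy h D) ^ 2 * nu g₂ D)) else 0) ≤
      EE g₁ (fun x₁ : Col n₁ κ => B D * (yT p h Q D) ^ 2 * ∏ k ∈ cols D, (R k x₁) ^ 2) := by
    intro D
    rw [EE_smul]
    have e0 := HR.lower hw₁ (cols D) (fun _ => 2)
    have e00 : 0 ≤ om g₁ D := om_nonneg hg₁ hg₁u D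
    unfold yT
    split_ifs with hD
    · have e1 : (1 - θ / 4) * nu g₂ D ≤ B D := by
        simp only [hB]
        rw [Finset.prod_mul_distrib]
        have e1 : ∏ i, nu1 (1 - (Fintype.card κ : ℝ) * g₂ i) (D i) =
            ∏ i ∈ Pool.Agent.H256R2.SC.supp D, (1 - (Fintype.card κ : ℝ) * g₂ i) := prod_nu1 _ D
        rw [e1]
        have e2 : 1 - θ / 4 ≤
            ∏ i ∈ Pool.Agent.H256R2.SC.supp D, (1 - (Fintype.card κ : ℝ) * g₂ i) := by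
          refine le_trans ?_ (prod_ge_one_sub_sum (Pool.Agent.H256R2.SC.supp D)
            (fun i => (Fintype.card κ : ℝ) * g₂ i)
            (fun i => mul_nonneg (Nat.cast_nonneg _) (H.g0 i).le) hug)
          rw [← Finset.mul_sum]
          have e3 := hδ D hD
          have e4 : ∑ i ∈ Pool.Agent.H256R2.SC.supp D, g₂ i ≤ δ / 2 := by
            unfold Pool.Agent.H256R2.SC.supp
            linarith
          have e5 : (Fintype.card κ : ℝ) * ∑ i ∈ Pool.Agent.H256R2.SC.supp D, g₂ i ≤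
              (Fintype.card κ : ℝ) * (δ / 2) :=
            mul_le_mul_of_nonneg_left e4 (Nat.cast_nonneg _)
          linarith
        have e6 : 0 ≤ nu g₂ D := nu_nonneg H.g0 D
        have e7 : ∏ i, nu1 (g₂ i) (D i) = nu g₂ D := rfl
        rw [e7, mul_comm]
        exact mul_le_mul_of_nonneg_left e2 e6
      have e2 : (1 - θ / 4) * nu g₂ D * (yy h D) ^ 2 ≤ B D * (yy h D) ^ 2 :=
        mul_le_mul_of_nonneg_right e1 (sq_nonneg _)
      have e3 : 0 ≤ B D * (yy h D) ^ 2 := mul_nonneg (hB0 D) (sq_nonneg _)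
      calc (1 - θ / 4) * (om g₁ D * ((yy h D) ^ 2 * nu g₂ D)) =
            ((1 - θ / 4) * nu g₂ D * (yy h D) ^ 2) * om g₁ D := by ring
        _ ≤ (B D * (yy h D) ^ 2) * om g₁ D := mul_le_mul_of_nonneg_right e2 e00
        _ ≤ _ := mul_le_mul_of_nonneg_left e0 e3
    · simp
  refine le_trans ?_ (Finset.sum_le_sum (fun D _ => h2 D))
  rw [← Finset.sum_filter, ← Finset.mul_sum]
  have h3 : Zw (om g₁ : Col n₂ κ → ℝ) g₂ h =
      ∑ D : Col n₂ κ with qq p D ≤ Q, om g₁ D * ((yy h D) ^ 2 * nu g₂ D) +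
      ∑ D : Col n₂ κ with ¬ qq p D ≤ Q, om g₁ D * ((yy h D) ^ 2 * nu g₂ D) := by
    unfold Zw
    rw [Finset.sum_filter_add_sum_filter_not]
  have h4 : ∑ D : Col n₂ κ with ¬ qq p D ≤ Q, om g₁ D * ((yy h D) ^ 2 * nu g₂ D) ≤
      ∑ D : Col n₂ κ with Q / z < qq p D, om g₁ D * ((yy h D) ^ 2 * nu g₂ D) := by
    apply Finset.sum_le_sum_of_subset_of_nonneg
    · intro D hD
      rw [Finset.mem_filter] at hD ⊢
      refine ⟨hD.1, lt_of_le_of_lt ?_ (not_le.mp hD.2)⟩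
      exact div_le_self hQ0.le H.z1.le
    · intro D _ _
      exact mul_nonneg (om_nonneg hg₁ hg₁u D) (mul_nonneg (sq_nonneg _) (nu_nonneg H.g0 D))
  set Z := Zw (om g₁ : Col n₂ κ → ℝ) g₂ h with hZ
  set S₁ := ∑ D : Col n₂ κ with qq p D ≤ Q, om g₁ D * ((yy h D) ^ 2 * nu g₂ D) with hS₁
  have h5 : (1 - θ / 4) * Z ≤ S₁ := by linarith
  have h6 : (1 - θ / 4) * ((1 - θ / 4) * Z) ≤ (1 - θ / 4) * S₁ :=
    mul_le_mul_of_nonneg_left h5 (by linarith)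
  have h7 : (1 - θ / 2) * Z ≤ (1 - θ / 4) * ((1 - θ / 4) * Z) := by
    have : 0 ≤ θ ^ 2 / 16 * Z := by positivity
    nlinarith
  linarith

theorem mean6 (H : HypS p g₂ h z K v₀) (HR : BHyp g₁ R m τ) (hτ0 : 0 ≤ τ) (hτ1 : τ ≤ 1)
    (Q δ η R₂ θ : ℝ) (J r : ℕ) (hJ : Even J) (hθ0 : 0 < θ) (hθ1 : θ ≤ 1)
    (hQz : 1 ≤ Q) (hη0 : 0 < η) (hη1 : η ≤ 1)
    (hg₁ : ∀ i, 0 ≤ g₁ i) (hg₁u : ∀ i, (Fintype.card κ : ℝ) * g₁ i ≤ 1 / 2)
    (hρ1 : 0 ≤ rho g₁ 1)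
    (htg : ∀ i, 3 * 3 * g₂ i ≤ 1)
    (hug : ∀ i, (Fintype.card κ : ℝ) * g₂ i ≤ 1)
    (hδ : ∀ D : Col n₂ κ, qq p D ≤ Q → 2 * ∑ i with D i ≠ none, g₂ i ≤ δ)
    (u₀ : ℝ) (hu₀ : (Fintype.card κ : ℝ) ≤ u₀)
    (hδ0 : 0 ≤ δ) (hug4 : u₀ * δ ≤ θ / 2)
    (hr : Real.log Q / v₀ ≤ r) (hrm : (r:ℝ) + 1 ≤ m) (hR₂ : 1 ≤ R₂) (hK : 0 ≤ K)
    (hE8 : Real.exp (η * ((1 + η) * u₀ *
      (rho g₁ 1 * K) / Real.log z - Real.log (Q / z) / Real.log z)) ≤ θ / 4)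
    (htail : 4 * (u₀ * rho g₁ 1) * (τ + (δ ^ 2 +
      Real.exp (η * ((1 + η) * u₀ *
      (rho g₁ 1 * K) / Real.log z - Real.log (Q / z) / Real.log z)))) ≤ θ / 6)
    (hmom : 2 * (u₀ * rho g₁ 1) * ((1 / 3) ^ J *
      Real.exp (20 * ∑ i, g₂ i)) ≤ θ / 6)
    (hpen : 2 * (u₀ * rho g₁ 1) * Real.exp (20 * ∑ i, g₂ i) ≤ R₂ * (θ / 6)) :
    (1 - θ) * Zw (om g₁ : Col n₂ κ → ℝ) g₂ h ≤ EE (Fin.append g₁ g₂)
      (fun x : Col (n₁ + n₂) κ => (GG g₂ (yT p h Q) R x) ^ 2 * (1 - MM R J R₂ x)) := by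
  set u : ℝ := (Fintype.card κ : ℝ) with hu
  have hu0 : 0 ≤ u := Nat.cast_nonneg _
  have hu00 : 0 ≤ u₀ := hu0.trans hu₀
  have hQ0 : 0 < Q := by linarith
  have hz0 : 0 < z := by linarith [H.z1]
  have hlz : 0 < Real.log z := Real.log_pos H.z1
  have hw : ∀ i (c : Option κ), 0 ≤ wt (g₂ i) c := fun i c => wt_nonneg (H.g0 i).le (hug i) c
  have hw₁ : ∀ i (c : Option κ), 0 ≤ wt (g₁ i) c := fun i c =>
    wt_nonneg (hg₁ i) (by linarith [hg₁u i]) c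
  set E : ℝ := Real.exp (η * ((1 + η) * u₀ * (rho g₁ 1 * K) / Real.log z -
    Real.log (Q / z) / Real.log z)) with hE
  set Z : ℝ := Zw (om g₁ : Col n₂ κ → ℝ) g₂ h with hZ
  have hZ1 : 1 ≤ Z := Zw_ge_one H hg₁ hg₁u
  have hZ0 : 0 ≤ Z := by linarith
  have hE0 : 0 < E := Real.exp_pos _
  have hT : ∑ D : Col n₂ κ with Q / z < qq p D, om g₁ D * ((yy h D) ^ 2 * nu g₂ D) ≤ E * Z := by
    have e1 := tail_rho H (om g₁) (om_nonneg hg₁ hg₁u) (rho g₁ 1) hρ1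
      (fun D k hD => om_step hg₁ hg₁u D k hD) η hη0 hη1 (Q / z) (by positivity)
    refine e1.trans ?_
    apply mul_le_mul_of_nonneg_right _ hZ0
    apply Real.exp_le_exp.2
    apply mul_le_mul_of_nonneg_left _ hη0.le
    apply sub_le_sub_right
    apply div_le_div_of_nonneg_right _ hlz.le
    apply mul_le_mul_of_nonneg_right _ (mul_nonneg hρ1 hK)
    exact mul_le_mul_of_nonneg_left hu₀ (by linarith)
  have hT8 : E * Z ≤ θ / 4 * Z := mul_le_mul_of_nonneg_right hE8 hZ0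
  have hm1 : Real.log Q / v₀ + 1 ≤ m := by linarith
  set V : Col n₁ κ → Col n₂ κ → ℝ := V5 g₂ (yT p h Q) R with hV
  have hlow : (1 - θ / 2) * Z ≤ EE g₁ (fun x₁ => EE g₂ (fun x₂ => (V x₁ x₂) ^ 2)) :=
    lower6 H HR hg₁ hg₁u Q δ (E * Z) θ hθ0 hθ1 hug hδ
      ((mul_le_mul_of_nonneg_right hu₀ hδ0).trans hug4) hQ0 hT hT8 hZ0
  set G : Col (n₁ + n₂) κ → ℝ := fun x => V (fstc x) (sndc x) with hG
  set B : κ → Col (n₁ + n₂) κ → ℝ := fun k x => R k (fstc x) * (SS J k (sndc x) + 1 / R₂) with hB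
  set e20 : ℝ := Real.exp (20 * ∑ i, g₂ i) with he20
  have he0 : 0 < e20 := Real.exp_pos _
  have hR₂0 : 0 < R₂ := by linarith
  -- the majorants
  have hup : ∀ k, EE (Fin.append g₁ g₂) (fun x => (G x) ^ 2 * B k x) ≤
      4 * rho g₁ 1 * (τ * Z + (δ ^ 2 * Z + E * Z)) + ((1 / 3) ^ J + 1 / R₂) *
        (2 * rho g₁ 1 * e20 * Z) := by
    intro k
    rw [EE_append]
    have h1 := avoid5 H HR hτ0 hτ1 hg₁ hg₁u hρ1 Q δ (E * Z) hug hδ hQ0 hm1 hT k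
    have h2 := moment5 H HR hτ1 hg₁ hg₁u hρ1 Q hug htg hm1 k
    have h3 : EE g₁ (fun x₁ => EE g₂ (fun x₂ =>
        (G (Fin.append x₁ x₂)) ^ 2 * B k (Fin.append x₁ x₂))) ≤
        EE g₁ (fun x₁ : Col n₁ κ => EE g₂ (fun x₂ : Col n₂ κ =>
          R k x₁ * ((if (∀ i, x₂ i ≠ some k) then 1 else 0) * (V x₁ x₂) ^ 2)) +
          ((1 / 3) ^ J + 1 / R₂) * EE g₂ (fun x₂ : Col n₂ κ => R k x₁ *
            ((∏ i, if x₂ i = some k then (1:ℝ) + 3 else 1) * (V x₁ x₂) ^ 2))) := by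
      apply EE_mono hw₁
      intro x₁
      rw [← EE_smul, ← EE_add]
      apply EE_mono hw
      intro x₂
      have h4 := SS_upper J hJ 3 (by norm_num) k x₂
      have h6 : G (Fin.append x₁ x₂) = V x₁ x₂ := by
        simp only [hG]
        rw [fstc_append, sndc_append]
      have h6' : B k (Fin.append x₁ x₂) = R k x₁ * (SS J k x₂ + 1 / R₂) := by
        simp only [hB]
        rw [fstc_append, sndc_append]
      rw [h6, h6']
      have h8 : (1:ℝ) ≤ ∏ i, if x₂ i = some k then (1:ℝ) + 3 else 1 := by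
        have e0 : (1:ℝ) = ∏ _i : Fin n₂, (1:ℝ) := by simp
        refine le_trans (le_of_eq e0) ?_
        apply Finset.prod_le_prod (fun _ _ => zero_le_one)
        intro i _
        split_ifs <;> norm_num
      have h9 : 0 ≤ 1 / R₂ := by positivity
      have h10 : SS J k x₂ + 1 / R₂ ≤ (if ∀ i, x₂ i ≠ some k then (1 : ℝ) else 0) +
          ((1 / 3) ^ J + 1 / R₂) * ∏ i, (if x₂ i = some k then 1 + 3 else 1) := by
        have := mul_le_mul_of_nonneg_left h8 h9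
        nlinarith
      have h11 : 0 ≤ R k x₁ * (V x₁ x₂) ^ 2 := mul_nonneg (HR.nn k x₁) (sq_nonneg _)
      have h7 := mul_le_mul_of_nonneg_left h10 h11
      refine le_trans (le_of_eq ?_) (h7.trans (le_of_eq ?_))
      · ring
      · ring
    refine h3.trans ?_
    rw [EE_add, EE_smul]
    have h9 := mul_le_mul_of_nonneg_left h2 (show (0:ℝ) ≤ (1 / 3) ^ J + 1 / R₂ by positivity)
    exact add_le_add h1 h9
  have e1 : EE (Fin.append g₁ g₂)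
      (fun x : Col (n₁ + n₂) κ => (GG g₂ (yT p h Q) R x) ^ 2 * (1 - MM R J R₂ x)) =
      EE (Fin.append g₁ g₂) (fun x => (G x) ^ 2) -
      ∑ k, EE (Fin.append g₁ g₂) (fun x => (G x) ^ 2 * B k x) := by
    rw [← EE_sum, ← EE_sub]
    congr 1
    funext x
    unfold GG MM
    rw [← Finset.mul_sum]
    simp only [hG, hB, hV]
    ring
  have e0 : EE (Fin.append g₁ g₂) (fun x => (G x) ^ 2) =
      EE g₁ (fun x₁ => EE g₂ (fun x₂ => (V x₁ x₂) ^ 2)) := by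
    rw [EE_append]
    simp only [hG, fstc_append, sndc_append]
  rw [e1, e0]
  have e2 : ∑ k : κ, EE (Fin.append g₁ g₂) (fun x => (G x) ^ 2 * B k x) ≤
      u₀ * (4 * rho g₁ 1 * (τ * Z + (δ ^ 2 * Z + E * Z)) + ((1 / 3) ^ J + 1 / R₂) *
      (2 * rho g₁ 1 * e20 * Z)) := by
    refine (Finset.sum_le_sum (fun k _ => hup k)).trans ?_
    rw [Finset.sum_const, Finset.card_univ, nsmul_eq_mul]
    apply mul_le_mul_of_nonneg_right hu₀
    positivity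
  have e3 : u₀ * (4 * rho g₁ 1 * (τ * Z + (δ ^ 2 * Z + E * Z))) ≤ θ / 6 * Z := by
    have := mul_le_mul_of_nonneg_right htail hZ0
    linarith
  have e4 : u₀ * ((1 / 3) ^ J * (2 * rho g₁ 1 * e20 * Z)) ≤ θ / 6 * Z := by
    have := mul_le_mul_of_nonneg_right hmom hZ0
    linarith
  have e5 : u₀ * (1 / R₂ * (2 * rho g₁ 1 * e20 * Z)) ≤ θ / 6 * Z := by
    have h0 : 2 * (u₀ * rho g₁ 1) * e20 * (1 / R₂) ≤ R₂ * (θ / 6) * (1 / R₂) :=
      mul_le_mul_of_nonneg_right hpen (by positivity)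
    have h1 : R₂ * (θ / 6) * (1 / R₂) = θ / 6 := by
      have : R₂ ≠ 0 := by positivity
      field_simp
    rw [h1] at h0
    have := mul_le_mul_of_nonneg_right h0 hZ0
    linarith
  linarith

end

/-- coefficient sums -/
theorem MM_Lw {Λ R₂ : ℝ} (hΛ : 1 ≤ Λ) (hR₂ : 1 ≤ R₂) (R : κ → Col n₁ κ → ℝ)
    (hRL : ∀ k, Lw Λ (R k)) (J : ℕ) :
    Lw (1 + (Fintype.card κ : ℝ) * (Λ * (((n₂:ℝ) + 1) ^ J + 1)))
      (fun x : Col (n₁ + n₂) κ => 1 - MM R J R₂ x) := by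
  set B : κ → Col (n₁ + n₂) κ → ℝ := fun k x => R k (fstc x) * (SS J k (sndc x) + 1 / R₂) with hB
  have e1 : Lw 1 (fun _ : Col (n₁ + n₂) κ => (1:ℝ)) := by
    have := Lw_const (n := n₁ + n₂) (κ := κ) 1
    simpa using this
  have eB : ∀ k, Lw (Λ * (((n₂:ℝ) + 1) ^ J + 1)) (B k) := by
    intro k
    have e3 : Lw (((n₂:ℝ) + 1) ^ J + 1) (fun x : Col (n₁ + n₂) κ => SS J k (sndc x) + 1 / R₂) := by
      have e4 : Lw (((n₂:ℝ) + 1) ^ J) (fun x : Col (n₁ + n₂) κ => SS J k (sndc x)) :=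
        Lw_snd (Lw_SS J k)
      have e5 : Lw 1 (fun _ : Col (n₁ + n₂) κ => -(1 / R₂)) := by
        have := Lw_const (n := n₁ + n₂) (κ := κ) (-(1 / R₂))
        refine Lw_mono ?_ this
        rw [abs_neg, abs_of_nonneg (by positivity)]
        rw [div_le_one (by linarith)]
        exact hR₂
      have e6 := Lw_sub e4 e5
      have e7 : (fun x : Col (n₁ + n₂) κ => SS J k (sndc x) + 1 / R₂) =
          fun x => SS J k (sndc x) - (-(1 / R₂)) := by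
        funext x
        ring
      rw [e7]
      exact e6
    exact Lw_mul (Lw_fst (hRL k)) e3
  have e2 := Lw_sum (n := n₁ + n₂) (univ : Finset κ) (fun _ => Λ * (((n₂:ℝ) + 1) ^ J + 1))
    (fun k => B k) (fun k _ => eB k)
  have e3 := Lw_sub e1 e2
  refine Lw_mono ?_ e3
  rw [Finset.sum_const, Finset.card_univ, nsmul_eq_mul]

/-- the pointwise facts -/
theorem point6 (g₂ : Fin n₂ → ℝ) (hg0 : ∀ i, 0 ≤ g₂ i) (y : Col n₂ κ → ℝ) (hy : ∀ D, |y D| ≤ 1)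
    (R : κ → Col n₁ κ → ℝ) (hR : ∀ k x, 0 ≤ R k x) (hR1 : ∀ k x, (∀ i, x i ≠ some k) → R k x = 1)
    (J m₀ r : ℕ) (hJ : Even J) (hm₀ : m₀ ≤ J)
    (hsupp : ∀ D, y D ≠ 0 → (cols D).card ≤ r ∧ ∀ k, (fib D k).card ≤ m₀)
    (R₂ : ℝ) (hR₂ : 1 ≤ R₂) (x : Col (n₁ + n₂) κ) (h1 : MM R J R₂ x < 1) :
    (∀ k, ∃ i, x i = some k) ∧ |GG g₂ y R x| ≤
      3 * (1 + 3 * Real.exp (∑ i, g₂ i) * ((J : ℝ) + 2) ^ (2 * J) * (R₂ + 1)) ^ r := by
  have hSS0 : ∀ l, 0 ≤ SS J l (sndc x) := by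
    intro l
    refine le_trans ?_ (SS_lower J hJ l (sndc x))
    split_ifs <;> norm_num
  have hR0 : ∀ l, 0 ≤ R l (fstc x) := fun l => hR l _
  have hiR : 0 < 1 / R₂ := by positivity
  have hB0 : ∀ l, 0 ≤ R l (fstc x) * (SS J l (sndc x) + 1 / R₂) := by
    intro l
    have := hSS0 l
    exact mul_nonneg (hR0 l) (by linarith)
  unfold MM at h1
  have hk1 : ∀ k, R k (fstc x) * (SS J k (sndc x) + 1 / R₂) < 1 := fun k =>
    lt_of_le_of_lt (Finset.single_le_sum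
      (f := fun k => R k (fstc x) * (SS J k (sndc x) + 1 / R₂))
      (fun l _ => hB0 l) (Finset.mem_univ k)) h1
  have hall : ∀ k, ∃ i, x i = some k := by
    intro k
    by_contra hk
    push Not at hk
    have h3 := SS_lower J hJ k (sndc x)
    have hk2 : ∀ i, sndc x i ≠ some k := fun i => hk (Fin.natAdd n₁ i)
    rw [if_pos hk2] at h3
    have h4 : R k (fstc x) = 1 := hR1 k _ (fun i => hk (Fin.castAdd n₂ i))
    have h5 := hk1 k
    rw [h4] at h5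
    linarith
  have hs1 : ∑ k, R k (fstc x) * SS J k (sndc x) ≤ 1 := by
    refine le_trans (Finset.sum_le_sum fun k _ => ?_) h1.le
    exact mul_le_mul_of_nonneg_left (by linarith) (hR0 k)
  have hs2 : ∑ k, R k (fstc x) ≤ R₂ := by
    have e1 : (1 / R₂) * ∑ k, R k (fstc x) ≤ 1 := by
      rw [Finset.mul_sum]
      refine le_trans (Finset.sum_le_sum fun k _ => ?_) h1.le
      rw [mul_comm]
      exact mul_le_mul_of_nonneg_left (by linarith [hSS0 k]) (hR0 k)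
    have e2 := mul_le_mul_of_nonneg_left e1 (show (0:ℝ) ≤ R₂ by linarith)
    have e3 : R₂ * (1 / R₂ * ∑ k, R k (fstc x)) = ∑ k, R k (fstc x) := by
      have : R₂ ≠ 0 := by positivity
      field_simp
    rw [e3, mul_one] at e2
    exact e2
  exact ⟨hall, V5_le g₂ hg0 y hy R J m₀ r hJ hm₀ hsupp (fstc x) (sndc x) hR0 R₂ hs2 hs1⟩

end Pool.Agent.Y831.RC
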