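import Pool.Agent.Y831.RC6.Mk6
import Pool.Agent.Y831.RC5.Cov5

set_option autoImplicit false
set_option linter.unusedSectionVars false
set_option linter.unusedVariables false

/-! # Parameter inequalities for two windows -/

namespace Pool.Agent.Y831.RC

open Finset Filter Pool.Agent.H256R2.SC

variable {L e ε Y Z V W c C θ : ℝ}

theorem s_tail (he1 : 1 ≤ e) (hC0 : 0 ≤ C) (hθ : 0 < θ) (h3 : 72 * (C / (2 * θ)) * e ^ 3 ≤ Real.exp e)
    (lam : ℝ) (hlam0 : 0 ≤ lam) (hlam : 2 * lam ≤ C * e ^ 3 * Real.exp e) (heL : Real.exp e ≤ L)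
    (E : ℝ) (hE : E ≤ Real.exp (-(20 * e))) :
    4 * lam * (Real.exp (-(2 * e)) + ((1 / L ^ 4) ^ 2 + E)) ≤ θ / 6 := by
  have h := p_tail (L := L) he1 (show 0 ≤ C / (2 * θ) by positivity) h3 (lam / (2 * θ))
    (by positivity) (by
      have e1 : 2 * (lam / (2 * θ)) = (2 * lam) / (2 * θ) := by ring
      have e2 : C / (2 * θ) * e ^ 3 * Real.exp e = (C * e ^ 3 * Real.exp e) / (2 * θ) := by ring
      rw [e1, e2]
      exact div_le_div_of_nonneg_right hlam (by positivity)) heL E hE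
  have e1 : 4 * (lam / (2 * θ)) * (Real.exp (-(2 * e)) + ((1 / L ^ 4) ^ 2 + E)) =
      (4 * lam * (Real.exp (-(2 * e)) + ((1 / L ^ 4) ^ 2 + E))) / (2 * θ) := by ring
  rw [e1, div_le_iff₀ (by positivity)] at h
  linarith

theorem s_mom (he1 : 1 ≤ e) (hC0 : 0 ≤ C) (hθ : 0 < θ) (h3 : 12 * (C / (2 * θ)) * e ^ 3 ≤ Real.exp e)
    (lam : ℝ) (hlam0 : 0 ≤ lam) (hlam : 2 * lam ≤ C * e ^ 3 * Real.exp e) (J : ℕ)
    (hJ : 30 * e ≤ J) :
    2 * lam * ((1 / 3) ^ J * Real.exp (20 * (11 / 10 * e))) ≤ θ / 6 := by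
  have h := p_mom he1 (show 0 ≤ C / (2 * θ) by positivity) h3 (lam / (2 * θ))
    (by positivity) (by
      have e1 : 2 * (lam / (2 * θ)) = (2 * lam) / (2 * θ) := by ring
      have e2 : C / (2 * θ) * e ^ 3 * Real.exp e = (C * e ^ 3 * Real.exp e) / (2 * θ) := by ring
      rw [e1, e2]
      exact div_le_div_of_nonneg_right hlam (by positivity)) J hJ
  have e1 : 2 * (lam / (2 * θ)) * ((1 / 3) ^ J * Real.exp (20 * (11 / 10 * e))) =
      (2 * lam * ((1 / 3) ^ J * Real.exp (20 * (11 / 10 * e)))) / (2 * θ) := by ring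
  rw [e1, div_le_iff₀ (by positivity)] at h
  linarith

theorem s_pen (he1 : 1 ≤ e) (hC0 : 0 ≤ C) (hθ : 0 < θ) (h3 : 12 * (C / (2 * θ)) * e ^ 3 ≤ Real.exp e)
    (lam : ℝ) (hlam0 : 0 ≤ lam) (hlam : 2 * lam ≤ C * e ^ 3 * Real.exp e) :
    2 * lam * Real.exp (20 * (11 / 10 * e)) ≤ Real.exp (24 * e) * (θ / 6) := by
  have h := p_pen he1 (show 0 ≤ C / (2 * θ) by positivity) h3 (lam / (2 * θ))
    (by positivity) (by
      have e1 : 2 * (lam / (2 * θ)) = (2 * lam) / (2 * θ) := by ring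
      have e2 : C / (2 * θ) * e ^ 3 * Real.exp e = (C * e ^ 3 * Real.exp e) / (2 * θ) := by ring
      rw [e1, e2]
      exact div_le_div_of_nonneg_right hlam (by positivity))
  have e1 : 2 * (lam / (2 * θ)) * Real.exp (20 * (11 / 10 * e)) =
      (2 * lam * Real.exp (20 * (11 / 10 * e))) / (2 * θ) := by ring
  rw [e1, div_le_iff₀ (by positivity)] at h
  linarith

/-- the exponent in the tail estimate, `log Q = (1/4 - ε) L` -/
theorem s_exp (hε : 0 < ε) (hε4 : ε ≤ 1 / 4) (hL : 1 ≤ L) (he1 : 1 ≤ e) (hV0 : 0 < V)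
    (hZ : Z = ε ^ 2 * L / (100 * e)) (lam : ℝ) (hlam0 : 0 ≤ lam)
    (hlam : lam ≤ (1 / 4 - 3 * ε) * (e * L * V)) :
    ε * ((1 + ε) * (lam * (1 / ((1 - ε) * V * e))) / Z - ((1 / 4 - ε) * L - Z) / Z) ≤ -(20 * e) := by
  have he0 : 0 < e := by linarith
  have hL0 : 0 < L := by linarith
  have hZ0 : 0 < Z := by rw [hZ]; positivity
  have h1ε : 0 < 1 - ε := by linarith
  have h1 := p_exp hε hε4 hL he1 hV0 hZ (lam + 1 / 4 * (e * L * V)) (by linarith)
  refine le_trans ?_ h1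
  apply mul_le_mul_of_nonneg_left _ hε.le
  have e1 : (lam + 1 / 4 * (e * L * V)) * (1 / ((1 - ε) * V * e)) =
      lam * (1 / ((1 - ε) * V * e)) + 1 / 4 * (L / (1 - ε)) := by
    field_simp
  rw [e1, ← sub_div, ← sub_div]
  apply div_le_div_of_nonneg_right _ hZ0.le
  have e2 : L ≤ L / (1 - ε) := by
    rw [le_div_iff₀ h1ε]
    nlinarith
  have e3 : L ≤ (1 + ε) * (L / (1 - ε)) := by
    have : 0 ≤ ε * (L / (1 - ε)) := by positivity
    linarith
  linarith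

theorem s_CB (hε : 0 < ε) (hε4 : ε ≤ 1 / 4) (hL : 2 ≤ L) (hl : 1 ≤ Real.log L)
    (hlL : Real.log L ≤ L) (he0 : 0 ≤ e)
    (hel : e ≤ Real.log L) (u : ℝ) (hu0 : 0 ≤ u) (hu : u ≤ L ^ 2 / 2)
    (hY : 160 / ε * Real.log L ≤ Y) :
    (Real.exp ((1 / 4 - ε) * L)) ^ (1 + ε / 16) *
      Real.exp (2 * u * ((Real.exp Y) ^ (1 - (1 + ε / 16)) * (11 / 10 * e))) ≤
      Real.exp ((1 / 4 - ε) * (1 + ε / 16) * L + 1) := by
  have h := p_CB hε hL hl hlL he0 hel u hu0 hu hY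
  have h1 : (Real.exp ((1 / 2 - ε) * L)) ^ (1 + ε / 16) =
      Real.exp ((1 / 2 - ε) * (1 + ε / 16) * L) := by
    rw [← Real.exp_mul]
    congr 1
    ring
  have h2 : (Real.exp ((1 / 4 - ε) * L)) ^ (1 + ε / 16) =
      Real.exp ((1 / 4 - ε) * (1 + ε / 16) * L) := by
    rw [← Real.exp_mul]
    congr 1
    ring
  rw [h1, Real.exp_add] at h
  rw [h2, Real.exp_add]
  have h3 := le_of_mul_le_mul_left h (Real.exp_pos _)
  exact mul_le_mul_of_nonneg_left h3 (Real.exp_pos _).le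

theorem s_small {x θ : ℝ} (hθ : 0 < θ) (hx : 1 + 1 / θ ≤ x) : Real.exp (-x) ≤ θ := by
  have h1 := Real.add_one_le_exp x
  have h2 : 0 < 1 / θ := by positivity
  rw [Real.exp_neg]
  rw [inv_le_comm₀ (Real.exp_pos x) hθ]
  rw [← one_div]
  linarith

/-- the two error terms -/
theorem s_L (hε : 0 < ε) (hε4 : ε ≤ 1 / 4) (hL : 2 ≤ L) (hl : 1 ≤ Real.log L) (hθ : 0 < θ)
    (hlL : 200 / ε * Real.log L ≤ L) (he : 300 / ε ≤ e) (he1 : 8 ≤ e)
    (hεL : 3 + 1 / θ ≤ ε * L)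
    (hY : Y = L * Real.exp (-e) / e ^ 2) (hZ : Z = ε ^ 2 * L / (100 * e))
    (u : ℝ) (hu0 : 0 ≤ u) (hu : u ≤ L ^ 2 / 2) (b₀ J r : ℕ) (hb₀ : (b₀:ℝ) ≤ 4 * e + 2)
    (hJ : (J:ℝ) ≤ 30 * e + 2) (hr : 2 * (r:ℝ) ≤ Real.exp e) :
    ((Real.exp (Y * (2 * b₀ + 4))) ^ r * Real.exp ((1 / 4 - ε) * (1 + ε / 16) * L + 1)) ^ 2 *
      (1 + u * (Real.exp (Y * (2 * b₀ + 4)) * ((Real.exp Z) ^ J + 1))) ≤
      θ * Real.exp ((1 - ε) * L) ∧
    ((Real.exp (Y * (2 * b₀ + 4))) ^ r * Real.exp ((1 / 4 - ε) * (1 + ε / 16) * L + 1)) ^ 4 ≤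
      θ * Real.exp ((1 - ε) * L) := by
  have hL0 : 0 < L := by linarith
  have he0 : 0 < e := by linarith
  have hY0 : 0 < Y := by rw [hY]; positivity
  have hlow := p_AB hε hε4 hL hl hlL he he1 hY hZ u hu0 hu b₀ J (2 * r) hb₀ hJ
    (by push_cast; exact hr) (Real.exp ((1 - ε) * L)) le_rfl
  set A := (Real.exp (Y * (2 * b₀ + 4))) ^ r with hA
  set F := 1 + u * (Real.exp (Y * (2 * b₀ + 4)) * ((Real.exp Z) ^ J + 1)) with hF
  set c₂ := Real.exp ((1 / 2 - ε) * (1 + ε / 16) * L + 1) with hc₂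
  set c₄ := Real.exp ((1 / 4 - ε) * (1 + ε / 16) * L + 1) with hc₄
  have hA1 : 1 ≤ A := one_le_pow₀ (Real.one_le_exp (by positivity))
  have hF1 : 1 ≤ F := by
    rw [hF]
    have : 0 ≤ u * (Real.exp (Y * (2 * b₀ + 4)) * ((Real.exp Z) ^ J + 1)) := by positivity
    linarith
  have hA2 : (Real.exp (Y * (2 * b₀ + 4))) ^ (2 * r) = A ^ 2 := by
    rw [hA, ← pow_mul, mul_comm r 2]
  rw [hA2] at hlow
  have hc21 : 1 ≤ c₂ := Real.one_le_exp (by
    have : 0 ≤ 1 / 2 - ε := by linarith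
    positivity)
  have hc20 : 0 < c₂ := by linarith
  have hX1 : 1 ≤ A ^ 2 * c₂ := by
    have : 1 ≤ A ^ 2 := one_le_pow₀ hA1
    nlinarith
  have h44 : c₄ ^ 2 = c₂ * Real.exp (-(ε * (1 + ε / 16) * L) + 1) := by
    rw [hc₄, hc₂, ← Real.exp_nat_mul, ← Real.exp_add]
    congr 1
    push_cast
    ring
  have hx : 1 + 1 / θ ≤ ε * (1 + ε / 16) * L - 1 := by
    have : 0 ≤ ε * (ε / 16) * L := by positivity
    nlinarith
  have hs := s_small hθ hx
  have hs' : Real.exp (-(ε * (1 + ε / 16) * L) + 1) ≤ θ := by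
    refine le_trans (le_of_eq ?_) hs
    congr 1
    ring
  have hs1 : Real.exp (-(ε * (1 + ε / 16) * L) + 1) ≤ 1 := by
    rw [Real.exp_le_one_iff]
    have : 0 < 1 / θ := by positivity
    linarith
  have hs0 := Real.exp_pos (-(ε * (1 + ε / 16) * L) + 1)
  set x := Real.exp (-(ε * (1 + ε / 16) * L) + 1) with hxd
  have hN0 := Real.exp_pos ((1 - ε) * L)
  have hA0 : 0 < A := by linarith
  have hF0 : 0 < F := by linarith
  have hX0 : 0 < A ^ 2 * c₂ := by linarith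
  have hXX : A ^ 2 * c₂ ≤ (A ^ 2 * c₂) ^ 2 := by nlinarith
  constructor
  · have e1 : (A * c₄) ^ 2 * F = (A ^ 2 * c₂) * F * x := by
      rw [mul_pow, h44]; ring
    rw [e1]
    have e2 : (A ^ 2 * c₂) * F ≤ (A ^ 2 * c₂) ^ 2 * F := mul_le_mul_of_nonneg_right hXX hF0.le
    have e3 : (A ^ 2 * c₂) * F ≤ Real.exp ((1 - ε) * L) := by linarith
    calc (A ^ 2 * c₂) * F * x ≤ Real.exp ((1 - ε) * L) * θ :=
          mul_le_mul e3 hs' hs0.le hN0.le
      _ = _ := mul_comm _ _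
  · have e1 : (A * c₄) ^ 4 = (A ^ 2 * c₂) ^ 2 * (x * x) := by
      have : (A * c₄) ^ 4 = (A ^ 2 * c₄ ^ 2) ^ 2 := by ring
      rw [this, h44]; ring
    rw [e1]
    have e2 : (A ^ 2 * c₂) ^ 2 ≤ (A ^ 2 * c₂) ^ 2 * F := by
      have : 0 ≤ (A ^ 2 * c₂) ^ 2 := by positivity
      nlinarith
    have e3 : (A ^ 2 * c₂) ^ 2 ≤ Real.exp ((1 - ε) * L) := by linarith
    have e4 : x * x ≤ θ := by nlinarith
    calc (A ^ 2 * c₂) ^ 2 * (x * x) ≤ Real.exp ((1 - ε) * L) * θ :=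
          mul_le_mul e3 e4 (by positivity) hN0.le
      _ = _ := mul_comm _ _

theorem s_pair (hθ : 0 < θ) (hθ1 : θ ≤ 1) (hL : 200 / θ ≤ L) (hL2 : 2 ≤ L) (he : 4 / θ ≤ e)
    (he0 : 0 ≤ e) (heL : e ≤ L)
    (u : ℝ) (hu0 : 0 ≤ u) (hu : u ≤ L ^ 2 / 2) (hy : L ^ 10 ≤ Real.exp Y) :
    (1 + Real.exp (-(2 * e))) *
      (Real.exp (12 * (u ^ 2 * ((11 / 10 * e) / Real.exp Y)) + 12 * (u * (1 / L ^ 4)))) ^ 2 ≤
      1 + θ := by
  have hL0 : 0 < L := by linarith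
  have hL10 : 0 < L ^ 10 := by positivity
  have h1 : u ^ 2 * ((11 / 10 * e) / Real.exp Y) ≤ 1 / L := by
    have e1 : u ^ 2 ≤ L ^ 4 / 4 := by
      have := pow_le_pow_left₀ hu0 hu 2
      refine this.trans (le_of_eq ?_)
      ring
    have e2 : (11 / 10 * e) / Real.exp Y ≤ (2 * L) / L ^ 10 := by
      apply div_le_div₀ (by positivity) (by linarith) hL10 hy
    calc u ^ 2 * ((11 / 10 * e) / Real.exp Y) ≤ L ^ 4 / 4 * ((2 * L) / L ^ 10) :=
          mul_le_mul e1 e2 (by positivity) (by positivity)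
      _ = 1 / 2 * (1 / L ^ 5) := by field_simp; norm_num
      _ ≤ 1 / L := by
          have e3 : 1 / L ^ 5 ≤ 1 / L := by
            apply one_div_le_one_div_of_le hL0
            calc L = L ^ 1 := (pow_one L).symm
              _ ≤ L ^ 5 := pow_le_pow_right₀ (by linarith) (by norm_num)
          have e4 : 0 < 1 / L := by positivity
          linarith
  have h2 : u * (1 / L ^ 4) ≤ 1 / L := by
    calc u * (1 / L ^ 4) ≤ L ^ 2 / 2 * (1 / L ^ 4) := mul_le_mul_of_nonneg_right hu (by positivity)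
      _ = 1 / 2 * (1 / L ^ 2) := by field_simp
      _ ≤ 1 / L := by
          have e3 : 1 / L ^ 2 ≤ 1 / L := by
            apply one_div_le_one_div_of_le hL0
            nlinarith
          have e4 : 0 < 1 / L := by positivity
          linarith
  have h3 : (Real.exp (12 * (u ^ 2 * ((11 / 10 * e) / Real.exp Y)) + 12 * (u * (1 / L ^ 4)))) ^ 2 ≤
      Real.exp (48 / L) := by
    rw [← Real.exp_nat_mul]
    apply Real.exp_le_exp.2
    have : 48 / L = 48 * (1 / L) := by ring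
    rw [this]
    push_cast
    linarith
  have hL1 : 1 / L ≤ θ / 200 := by
    rw [div_le_div_iff₀ hL0 (by norm_num)]
    rw [div_le_iff₀ hθ] at hL
    linarith
  have hx0 : 0 ≤ 48 / L := by positivity
  have hxθ : 48 / L ≤ 48 / 200 * θ := by
    have : 48 / L = 48 * (1 / L) := by ring
    rw [this]
    linarith
  have h4 : Real.exp (48 / L) ≤ 1 + θ / 2 := by
    have hx1 : |48 / L| ≤ 1 := by
      rw [abs_of_nonneg hx0]
      linarith
    have e1 := Real.abs_exp_sub_one_le hx1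
    have e2 := (abs_le.1 e1).2
    rw [abs_of_nonneg hx0] at e2
    linarith
  have h5 : Real.exp (-(2 * e)) ≤ θ / 4 := by
    apply s_small (by positivity)
    have e1 : 1 / (θ / 4) = 4 / θ := by field_simp
    rw [e1]
    have e2 : 1 ≤ 4 / θ := by
      rw [le_div_iff₀ hθ]
      linarith
    linarith
  have h6 := Real.exp_pos (-(2 * e))
  calc (1 + Real.exp (-(2 * e))) *
      (Real.exp (12 * (u ^ 2 * ((11 / 10 * e) / Real.exp Y)) + 12 * (u * (1 / L ^ 4)))) ^ 2 ≤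
      (1 + θ / 4) * (1 + θ / 2) :=
        mul_le_mul (by linarith) (h3.trans h4) (by positivity) (by positivity)
    _ ≤ 1 + θ := by nlinarith

end Pool.Agent.Y831.RC
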