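import Pool.Agent.Y831.RC6.Joint

set_option autoImplicit false
set_option linter.unusedSectionVars false
set_option linter.unusedVariables false

/-! # Two windows: the second moment -/

namespace Pool.Agent.Y831.RC

open Finset Pool.Agent.H256R2.SC

variable {n n₁ n₂ : ℕ} {κ κ' : Type} [Fintype κ] [DecidableEq κ] [Fintype κ'] [DecidableEq κ']

theorem rho_mul {g : Fin n → ℝ} (hg : ∀ i, 0 ≤ g i) (a b : ℕ)
    (hu : ∀ i, ((a:ℝ) + b) * g i ≤ 1) : rho g (a + b) ≤ rho g a * rho g b := by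
  unfold rho
  rw [← Finset.prod_mul_distrib]
  apply Finset.prod_le_prod
  · intro i _
    push_cast
    linarith [hu i]
  · intro i _
    push_cast
    have h1 : 0 ≤ (a:ℝ) * g i := mul_nonneg (Nat.cast_nonneg a) (hg i)
    have h2 : 0 ≤ (b:ℝ) * g i := mul_nonneg (Nat.cast_nonneg b) (hg i)
    have h3 := mul_nonneg h1 h2
    linarith

/-- the weight of all hits -/
theorem all_upper (g₂ : Fin n₂ → ℝ) (hg : ∀ i, 0 ≤ g₂ i) (u₀ δ S₂ : ℝ) (hu₀ : 0 ≤ u₀)
    (hu : (Fintype.card κ : ℝ) ≤ u₀) (hug : ∀ i, u₀ * g₂ i ≤ 1) (hS₂ : ∑ i, (g₂ i) ^ 2 ≤ S₂)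
    (y : Col n₂ κ → ℝ) (hδ : ∀ D, y D ≠ 0 → 2 * ∑ i with D i ≠ none, g₂ i ≤ δ) :
    EE g₂ (fun x : Col n₂ κ => (∏ i, if x i ≠ none then 1 + 4 * (u₀ * g₂ i) else 1) *
      (VV g₂ y x) ^ 2) ≤
      Real.exp (12 * (u₀ ^ 2 * S₂) + 12 * (u₀ * δ)) * ∑ D, nu g₂ D * (y D) ^ 2 := by
  have hκg : ∀ i, (Fintype.card κ : ℝ) * g₂ i ≤ 1 := fun i =>
    (mul_le_mul_of_nonneg_right hu (hg i)).trans (hug i)
  have hκ0 : (0:ℝ) ≤ Fintype.card κ := Nat.cast_nonneg _
  have hw : ∀ i (c : Option κ), 0 ≤ wt (g₂ i) c := fun i c => wt_nonneg (hg i) (hκg i) c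
  have ht : ∀ i, 0 ≤ 4 * (u₀ * g₂ i) := fun i => by have := mul_nonneg hu₀ (hg i); linarith
  have h1 := tensor_upper (κ := κ) g₂ (fun i c => if c ≠ none then 1 + 4 * (u₀ * g₂ i) else 1)
    (fun i a => match a with
      | none => 1 + 3 * (4 * (u₀ * g₂ i)) * ((Fintype.card κ : ℝ) * g₂ i)
      | some _ => (1 + 6 * (4 * (u₀ * g₂ i))) * g₂ i) hw (by
      intro i c
      have := ht i
      split_ifs <;> linarith) (by
      intro i c
      have e1 := ht i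
      have e2 := hg i
      have e3 := mul_nonneg hκ0 e2
      cases c with
      | none =>
        simp only
        have := mul_nonneg e1 e3
        linarith
      | some k =>
        simp only
        have := mul_nonneg e1 e2
        linarith) (fun i Y => local_all (g₂ i) _ (hg i) (ht i) (hκg i) Y) y
  refine h1.trans ?_
  rw [Finset.mul_sum]
  apply Finset.sum_le_sum
  intro D _
  by_cases hD : y D = 0
  · rw [hD]
    simp
  · rw [← mul_assoc]
    apply mul_le_mul_of_nonneg_right _ (sq_nonneg _)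
    have h2 : ∏ i, (match D i with
        | none => 1 + 3 * (4 * (u₀ * g₂ i)) * ((Fintype.card κ : ℝ) * g₂ i)
        | some _ => (1 + 6 * (4 * (u₀ * g₂ i))) * g₂ i) ≤
        ∏ i, (Real.exp (12 * (u₀ ^ 2 * (g₂ i) ^ 2)) *
          ((if D i ≠ none then Real.exp (24 * (u₀ * g₂ i)) else 1) * nu1 (g₂ i) (D i))) := by
      apply Finset.prod_le_prod
      · intro i _
        have e1 := ht i
        have e2 := hg i
        have e3 := mul_nonneg hκ0 e2
        cases D i with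
        | none =>
          simp only
          have := mul_nonneg e1 e3
          linarith
        | some k =>
          simp only
          have := mul_nonneg e1 e2
          linarith
      · intro i _
        have e1 := ht i
        have e2 := hg i
        have e3 := mul_nonneg hκ0 e2
        have e4 : 1 ≤ Real.exp (12 * (u₀ ^ 2 * (g₂ i) ^ 2)) := Real.one_le_exp (by positivity)
        cases D i with
        | none =>
          simp only [nu1, ne_eq, not_true_eq_false, if_false, mul_one]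
          have e5 := Real.add_one_le_exp (12 * (u₀ ^ 2 * (g₂ i) ^ 2))
          have e6 : (u₀ * g₂ i) * ((Fintype.card κ : ℝ) * g₂ i) ≤ (u₀ * g₂ i) * (u₀ * g₂ i) :=
            mul_le_mul_of_nonneg_left (mul_le_mul_of_nonneg_right hu e2) (mul_nonneg hu₀ e2)
          have e7 : (u₀ * g₂ i) * (u₀ * g₂ i) = u₀ ^ 2 * (g₂ i) ^ 2 := by ring
          rw [e7] at e6
          linarith
        | some k =>
          simp only [nu1, ne_eq, reduceCtorEq, not_false_eq_true, if_true]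
          have e5 := Real.add_one_le_exp (24 * (u₀ * g₂ i))
          have e6 : (1 + 6 * (4 * (u₀ * g₂ i))) * g₂ i ≤ Real.exp (24 * (u₀ * g₂ i)) * g₂ i :=
            mul_le_mul_of_nonneg_right (by linarith) e2
          have e7 : 0 ≤ Real.exp (24 * (u₀ * g₂ i)) * g₂ i := by positivity
          have e8 := mul_le_mul_of_nonneg_right e4 e7
          linarith
    refine h2.trans ?_
    rw [Finset.prod_mul_distrib, Finset.prod_mul_distrib, ← Real.exp_sum]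
    have e1 : ∏ i, (if D i ≠ none then Real.exp (24 * (u₀ * g₂ i)) else 1) =
        Real.exp (∑ i with D i ≠ none, 24 * (u₀ * g₂ i)) := by
      rw [Real.exp_sum, Finset.prod_filter]
    rw [e1, ← mul_assoc, ← Real.exp_add]
    have e2 : ∏ i, nu1 (g₂ i) (D i) = nu g₂ D := rfl
    rw [e2]
    apply mul_le_mul_of_nonneg_right _ (E_nu_nonneg hg D)
    apply Real.exp_le_exp.2
    have e3 : ∑ i, 12 * (u₀ ^ 2 * (g₂ i) ^ 2) ≤ 12 * (u₀ ^ 2 * S₂) := by
      rw [← Finset.mul_sum, ← Finset.mul_sum]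
      have := mul_le_mul_of_nonneg_left hS₂ (sq_nonneg u₀)
      linarith
    have e4 : ∑ i with D i ≠ none, 24 * (u₀ * g₂ i) ≤ 12 * (u₀ * δ) := by
      rw [← Finset.mul_sum, ← Finset.mul_sum]
      have := mul_le_mul_of_nonneg_left (hδ D hD) hu₀
      linarith
    linarith

theorem V5_sum {κ : Type} [Fintype κ] [DecidableEq κ] (g₂ : Fin n₂ → ℝ) (y : Col n₂ κ → ℝ)
    (R : κ → Col n₁ κ → ℝ) (x₁ : Col n₁ κ) :
    ∑ D, nu g₂ D * (y D * ∏ k ∈ cols D, R k x₁) ^ 2 =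
      ∑ D, (nu g₂ D * (y D) ^ 2) * ∏ k ∈ cols D, (R k x₁) ^ 2 := by
  refine Finset.sum_congr rfl fun D _ => ?_
  rw [Finset.prod_pow]
  ring

/-- the second moment of two windows -/
theorem pair_upper {p g₂ : Fin n₂ → ℝ} {h : Finset (Fin n₂) → ℝ} {z K v₀ : ℝ}
    (H : HypS p g₂ h z K v₀) {g₁ : Fin n₁ → ℝ} (hg₁ : ∀ i, 0 ≤ g₁ i) (u₀ : ℝ) (hu₀ : 0 ≤ u₀)
    (hg₁u : ∀ i, 2 * u₀ * g₁ i ≤ 1 / 2) (bl : Fin n₁ → ℕ) (B : ℕ) (M : ℕ → ℕ) {m τ : ℝ}
    (hτ0 : 0 ≤ τ)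
    (HB : BHyp g₁ (fun k : κ ⊕ κ' => BHk bl B M k) m τ) (Q δ S₂ : ℝ)
    (hu : (Fintype.card κ : ℝ) ≤ u₀) (hu' : (Fintype.card κ' : ℝ) ≤ u₀)
    (hug : ∀ i, 2 * u₀ * g₂ i ≤ 1 / 2) (hS₂ : ∑ i, (g₂ i) ^ 2 ≤ S₂)
    (hδ : ∀ D : Col n₂ κ, yT p h Q D ≠ 0 → 2 * ∑ i with D i ≠ none, g₂ i ≤ δ)
    (hδ' : ∀ D : Col n₂ κ', yT p h Q D ≠ 0 → 2 * ∑ i with D i ≠ none, g₂ i ≤ δ)
    (r : ℕ) (hr : ∀ D : Col n₂ κ, yT p h Q D ≠ 0 → (cols D).card ≤ r)
    (hr' : ∀ D : Col n₂ κ', yT p h Q D ≠ 0 → (cols D).card ≤ r) (hrm : 2 * (r:ℝ) ≤ m) :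
    EE g₁ (fun X₁ : Col n₁ (κ ⊕ κ') => EE g₂ (fun X₂ : Col n₂ (κ ⊕ κ') =>
      (V5 g₂ (yT p h Q) (fun k => BHk bl B M k) (lc X₁) (lc X₂)) ^ 2 *
      (V5 g₂ (yT p h Q) (fun k => BHk bl B M k) (rc X₁) (rc X₂)) ^ 2)) ≤
      (1 + τ) * (Real.exp (12 * (u₀ ^ 2 * S₂) + 12 * (u₀ * δ))) ^ 2 *
      (Zw (om g₁ : Col n₂ κ → ℝ) g₂ h * Zw (om g₁ : Col n₂ κ' → ℝ) g₂ h) := by
  have hg0 : ∀ i, 0 ≤ g₂ i := fun i => (H.g0 i).le
  have hsum1 : ((Fintype.card κ : ℝ) + Fintype.card κ') ≤ 2 * u₀ := by linarith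
  have hw₁ : ∀ i (c : Option (κ ⊕ κ')), 0 ≤ wt (g₁ i) c := fun i c => by
    apply wt_nonneg (hg₁ i)
    rw [card_sum_real]
    have := mul_le_mul_of_nonneg_right hsum1 (hg₁ i)
    linarith [hg₁u i]
  set E₀ : ℝ := Real.exp (12 * (u₀ ^ 2 * S₂) + 12 * (u₀ * δ)) with hE₀
  have hE₀0 : 0 < E₀ := Real.exp_pos _
  have hu1 : ∀ i, u₀ * g₂ i ≤ 1 := fun i => by
    have := mul_nonneg hu₀ (hg0 i)
    linarith [hug i]
  -- the second block
  have h1 : ∀ X₁ : Col n₁ (κ ⊕ κ'), EE g₂ (fun X₂ : Col n₂ (κ ⊕ κ') =>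
      (V5 g₂ (yT p h Q) (fun k => BHk bl B M k) (lc X₁) (lc X₂)) ^ 2 *
      (V5 g₂ (yT p h Q) (fun k => BHk bl B M k) (rc X₁) (rc X₂)) ^ 2) ≤
      E₀ ^ 2 * ∑ D : Col n₂ κ, ∑ D' : Col n₂ κ', ((nu g₂ D * (yT p h Q D) ^ 2) *
        (nu g₂ D' * (yT p h Q D') ^ 2)) * ((∏ k ∈ cols D, (BHk bl B M k (lc X₁)) ^ 2) *
        ∏ k ∈ cols D', (BHk bl B M k (rc X₁)) ^ 2) := by
    intro X₁
    have e1 := EE_couple (κ := κ) (κ' := κ') g₂ (fun i => 4 * (u₀ * g₂ i)) hg0 (by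
      intro i
      have := mul_le_mul_of_nonneg_right hsum1 (hg0 i)
      linarith [hug i]) (by
      intro i
      have := mul_le_mul_of_nonneg_right hsum1 (hg0 i)
      linarith)
      (fun x => (V5 g₂ (yT p h Q) (fun k => BHk bl B M k) (lc X₁) x) ^ 2)
      (fun x => (V5 g₂ (yT p h Q) (fun k => BHk bl B M k) (rc X₁) x) ^ 2)
      (fun x => sq_nonneg _) (fun x => sq_nonneg _)
    refine e1.trans ?_
    have e2 := all_upper (κ := κ) g₂ hg0 u₀ δ S₂ hu₀ hu hu1 hS₂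
      (fun D => yT p h Q D * ∏ k ∈ cols D, BHk bl B M k (lc X₁))
      (fun D hD => hδ D (left_ne_zero_of_mul hD))
    have e3 := all_upper (κ := κ') g₂ hg0 u₀ δ S₂ hu₀ hu' hu1 hS₂
      (fun D => yT p h Q D * ∏ k ∈ cols D, BHk bl B M k (rc X₁))
      (fun D hD => hδ' D (left_ne_zero_of_mul hD))
    rw [V5_sum g₂ (yT p h Q) (fun k => BHk bl B M k) (lc X₁)] at e2
    rw [V5_sum g₂ (yT p h Q) (fun k => BHk bl B M k) (rc X₁)] at e3
    have e4 : 0 ≤ EE g₂ (fun x : Col n₂ κ' => (∏ i, if x i ≠ none then 1 + 4 * (u₀ * g₂ i) else 1) *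
        (V5 g₂ (yT p h Q) (fun k => BHk bl B M k) (rc X₁) x) ^ 2) := by
      unfold EE
      apply Finset.sum_nonneg
      intro x _
      apply mul_nonneg
      · apply Finset.prod_nonneg
        intro i _
        apply wt_nonneg (hg0 i)
        have := mul_le_mul_of_nonneg_right hu' (hg0 i)
        linarith [hu1 i]
      · apply mul_nonneg _ (sq_nonneg _)
        apply Finset.prod_nonneg
        intro i _
        have := mul_nonneg hu₀ (hg0 i)
        split_ifs <;> linarith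
    refine (mul_le_mul e2 e3 e4 ?_).trans (le_of_eq ?_)
    · apply mul_nonneg hE₀0.le
      apply Finset.sum_nonneg
      intro D _
      apply mul_nonneg (mul_nonneg (E_nu_nonneg hg0 D) (sq_nonneg _))
      exact Finset.prod_nonneg fun k _ => sq_nonneg _
    · rw [mul_mul_mul_comm, ← sq, Finset.sum_mul_sum]
      congr 1
      refine Finset.sum_congr rfl fun D _ => Finset.sum_congr rfl fun D' _ => ?_
      ring
  refine (EE_mono hw₁ h1).trans ?_
  rw [EE_smul, EE_sum]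
  have h2 : ∀ D : Col n₂ κ, EE g₁ (fun X₁ : Col n₁ (κ ⊕ κ') => ∑ D' : Col n₂ κ',
      ((nu g₂ D * (yT p h Q D) ^ 2) *
        (nu g₂ D' * (yT p h Q D') ^ 2)) * ((∏ k ∈ cols D, (BHk bl B M k (lc X₁)) ^ 2) *
        ∏ k ∈ cols D', (BHk bl B M k (rc X₁)) ^ 2)) ≤
      ∑ D' : Col n₂ κ', (1 + τ) * ((om g₁ D * ((yy h D) ^ 2 * nu g₂ D)) *
        (om g₁ D' * ((yy h D') ^ 2 * nu g₂ D'))) := by
    intro D
    rw [EE_sum]
    apply Finset.sum_le_sum
    intro D' _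
    rw [EE_smul]
    have hν := E_nu_nonneg hg0 D
    have hν' := E_nu_nonneg hg0 D'
    have hg₁κ : ∀ i, (Fintype.card κ : ℝ) * g₁ i ≤ 1 / 2 := fun i => by
      have e1 := mul_le_mul_of_nonneg_right hu (hg₁ i)
      have e2 := mul_nonneg hu₀ (hg₁ i)
      linarith [hg₁u i]
    have hg₁κ' : ∀ i, (Fintype.card κ' : ℝ) * g₁ i ≤ 1 / 2 := fun i => by
      have e1 := mul_le_mul_of_nonneg_right hu' (hg₁ i)
      have e2 := mul_nonneg hu₀ (hg₁ i)
      linarith [hg₁u i]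
    have hom : 0 ≤ om g₁ D := om_nonneg hg₁ hg₁κ D
    have hom' : 0 ≤ om g₁ D' := om_nonneg hg₁ hg₁κ' D'
    have hτ1 : 0 ≤ 1 + τ := by linarith
    by_cases h0 : yT p h Q D = 0
    · rw [h0]
      have e1 : 0 ≤ (om g₁ D * ((yy h D) ^ 2 * nu g₂ D)) *
        (om g₁ D' * ((yy h D') ^ 2 * nu g₂ D')) := by positivity
      have e2 := mul_nonneg hτ1 e1
      simpa using e2
    by_cases h0' : yT p h Q D' = 0
    · rw [h0']
      have e1 : 0 ≤ (om g₁ D * ((yy h D) ^ 2 * nu g₂ D)) *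
        (om g₁ D' * ((yy h D') ^ 2 * nu g₂ D')) := by positivity
      have e2 := mul_nonneg hτ1 e1
      simpa using e2
    have e1 := BH_pair bl B M HB (cols D) (cols D') (by
      have h3 : ((cols D).card : ℝ) ≤ r := by exact_mod_cast hr D h0
      have h4 : ((cols D').card : ℝ) ≤ r := by exact_mod_cast hr' D' h0'
      linarith)
    have e2 : rho g₁ ((cols D).card + (cols D').card) ≤ om g₁ D * om g₁ D' := by
      apply rho_mul hg₁
      intro i
      have h3 : ((cols D).card : ℝ) ≤ Fintype.card κ := by exact_mod_cast Finset.card_le_univ _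
      have h4 : ((cols D').card : ℝ) ≤ Fintype.card κ' := by exact_mod_cast Finset.card_le_univ _
      have h5 := mul_le_mul_of_nonneg_right (show ((cols D).card : ℝ) + (cols D').card ≤ 2 * u₀ by
        linarith) (hg₁ i)
      linarith [hg₁u i]
    have e3 : EE g₁ (fun X : Col n₁ (κ ⊕ κ') => (∏ k ∈ cols D, (BHk bl B M k (lc X)) ^ 2) *
        ∏ k ∈ cols D', (BHk bl B M k (rc X)) ^ 2) ≤ (1 + τ) * (om g₁ D * om g₁ D') :=
      e1.trans (mul_le_mul_of_nonneg_left e2 hτ1)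
    have e4 := yT_sq_le (p := p) (h := h) Q D
    have e5 := yT_sq_le (p := p) (h := h) Q D'
    have e6 : 0 ≤ (nu g₂ D * (yT p h Q D) ^ 2) * (nu g₂ D' * (yT p h Q D') ^ 2) := by positivity
    refine (mul_le_mul_of_nonneg_left e3 e6).trans ?_
    have e7 : (nu g₂ D * (yT p h Q D) ^ 2) * (nu g₂ D' * (yT p h Q D') ^ 2) ≤
        (nu g₂ D * (yy h D) ^ 2) * (nu g₂ D' * (yy h D') ^ 2) := by
      apply mul_le_mul
      · exact mul_le_mul_of_nonneg_left e4 hν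
      · exact mul_le_mul_of_nonneg_left e5 hν'
      · positivity
      · positivity
    have e8 : 0 ≤ (1 + τ) * (om g₁ D * om g₁ D') := by positivity
    refine (mul_le_mul_of_nonneg_right e7 e8).trans (le_of_eq ?_)
    ring
  have h3 := Finset.sum_le_sum (s := (univ : Finset (Col n₂ κ))) (fun D _ => h2 D)
  have h4 := mul_le_mul_of_nonneg_left h3 (sq_nonneg E₀)
  refine h4.trans (le_of_eq ?_)
  unfold Zw
  rw [Finset.sum_mul_sum]
  simp only [← Finset.mul_sum]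
  ring

end Pool.Agent.Y831.RC
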